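import Pool.Agent.Work.MP_85af13_lc.G.C.Level

set_option autoImplicit false
set_option linter.unusedVariables false
set_option linter.unusedSimpArgs false

/-!
# The value computed by the program

PROOF. Let `S t = Σ_{p<n} U t p`. The constant row `a` is balanced with the sum `2 n a`. By induction on `T` (`List.range_succ`, `List.flatMap_append`, `runR_append`, `level_spec`): the row after
the levels `0, .., T` is balanced, has values in `[lo, hi]` and the sum `V_T = (2 n a + Σ_{t ≤ T} 2 ^ (t+1) S t) / 2 ^ (T+1)`: `V_T = V_{T-1} / 2 + S T`,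
`(Y / 2 ^ T) / 2 = Y / 2 ^ (T+1)` (`Int.ediv_ediv_eq_ediv_mul` / `Int.ediv_ediv`), `Y / m + S = (Y + m S) / m` (`Int.add_mul_ediv_left`). So `V_T = (n a + Σ_{t ≤ T} 2 ^ t S t) / 2 ^ T`
(`Int.mul_ediv_mul_of_pos`). `first_eq`: the first register of a balanced row is `sm / (2 n)` because `2 n r0 ≤ sm < 2 n (r0 + 1)`: all registers are `≤ r0 + 1` and the first one
is `r0`. Finally `(Y / 2 ^ T) / (2 n) = Y / (2 ^ (T+1) n)`.
-/

namespace Pool.Agent.Work.MP_85af13_lc.G

theorem first_eq (n : ℕ) (hn : 0 < n) (r : ℕ → ℤ) (hb : Blc (2 * n) r) :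
    r 0 = sm (2 * n) r / (2 * n) := by
  obtain ⟨hs, hl⟩ := hb
  have hpos : (0 : ℤ) < 2 * n := by
    have : (0 : ℤ) < n := by exact_mod_cast hn
    linarith
  have h1 : ∀ i ∈ Finset.range (2 * n), r 0 ≤ r i := fun i hi =>
    hs 0 i (Nat.zero_le _) (Finset.mem_range.1 hi)
  have h2 : ∀ i ∈ Finset.range (2 * n), r i ≤ r 0 + 1 := fun i hi => by
    have h3 := Finset.mem_range.1 hi
    exact (hs i (2 * n - 1) (by omega) (by omega)).trans hl
  have h4 : (2 * n : ℤ) * r 0 ≤ sm (2 * n) r := by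
    have h5 := Finset.card_nsmul_le_sum (Finset.range (2 * n)) r (r 0) h1
    rw [Finset.card_range, nsmul_eq_mul] at h5
    push_cast at h5
    exact h5
  have h6 : sm (2 * n) r < (2 * n : ℤ) * (r 0 + 1) := by
    have h7 : ∑ i ∈ Finset.range (2 * n), r i < ∑ i ∈ Finset.range (2 * n), (r 0 + 1) :=
      Finset.sum_lt_sum h2 ⟨0, Finset.mem_range.2 (by omega), by linarith⟩
    rw [Finset.sum_const, Finset.card_range, nsmul_eq_mul] at h7
    push_cast at h7
    exact h7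
  apply le_antisymm
  · rw [Int.le_ediv_iff_mul_le hpos]
    linarith
  · rw [← Int.lt_add_one_iff, Int.ediv_lt_iff_lt_mul hpos]
    linarith

private theorem levels_spec (n b T : ℕ) (hn : 0 < n) (U : ℕ → ℕ → ℤ) (lo hi : ℤ)
    (hlh : hi ≤ lo + 2 ^ (b + 1)) (a : ℤ) (ha1 : lo ≤ a) (ha2 : a ≤ hi)
    (hU : ∀ t ≤ T, ∀ p < n, lo ≤ U t p ∧ U t p ≤ hi) (m : ℕ) (hm : m ≤ T + 1) :
    Blc (2 * n) (runR n U ((List.range m).flatMap fun t => levelP (2 * n) b t) (fun _ => a)) ∧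
    Inn (2 * n) lo hi
      (runR n U ((List.range m).flatMap fun t => levelP (2 * n) b t) (fun _ => a)) ∧
    sm (2 * n) (runR n U ((List.range m).flatMap fun t => levelP (2 * n) b t) (fun _ => a)) =
      (2 * n * a + ∑ t ∈ Finset.range m, 2 ^ (t + 1) * ∑ p ∈ Finset.range n, U t p) / 2 ^ m := by
  induction m with
  | zero =>
    refine ⟨⟨fun _ _ _ _ => le_refl _, ?_⟩, fun _ _ => ⟨ha1, ha2⟩, ?_⟩
    · show a ≤ a + 1
      linarith
    · show ∑ _i ∈ Finset.range (2 * n), a = _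
      rw [Finset.sum_const, Finset.card_range, nsmul_eq_mul, Finset.range_zero, Finset.sum_empty,
        pow_zero, Int.ediv_one, add_zero]
      push_cast
      rfl
  | succ m ih =>
    obtain ⟨h1, h2, h3⟩ := ih (by omega)
    rw [List.range_succ, List.flatMap_append, List.flatMap_singleton, runR_append]
    obtain ⟨g1, g2, g3⟩ := level_spec n b m hn U lo hi hlh _ h1 h2 (hU m (by omega))
    refine ⟨g1, g2, ?_⟩
    rw [g3, h3, Finset.sum_range_succ, ← add_assoc, Int.add_mul_ediv_left _ _ (by positivity)]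
    congr 1
    rw [Int.ediv_ediv_of_nonneg (by positivity), pow_succ]

theorem prog_spec (n b T : ℕ) (hn : 0 < n) (U : ℕ → ℕ → ℤ) (lo hi : ℤ)
    (hlh : hi ≤ lo + 2 ^ (b + 1)) (a : ℤ) (ha1 : lo ≤ a) (ha2 : a ≤ hi)
    (hU : ∀ t ≤ T, ∀ p < n, lo ≤ U t p ∧ U t p ≤ hi) :
    runR n U (progP (2 * n) b T) (fun _ => a) 0 =
      (n * a + ∑ t ∈ Finset.range (T + 1), 2 ^ t * ∑ p ∈ Finset.range n, U t p) /
        (2 ^ (T + 1) * n) := by
  obtain ⟨h1, -, h3⟩ := levels_spec n b T hn U lo hi hlh a ha1 ha2 hU (T + 1) (le_refl _)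
  have h4 := first_eq n hn _ h1
  rw [h3, Int.ediv_ediv_of_nonneg (by positivity)] at h4
  have e1 : (2 * n * a + ∑ t ∈ Finset.range (T + 1), 2 ^ (t + 1) * ∑ p ∈ Finset.range n, U t p : ℤ) =
      2 * (n * a + ∑ t ∈ Finset.range (T + 1), 2 ^ t * ∑ p ∈ Finset.range n, U t p) := by
    rw [mul_add, Finset.mul_sum]
    congr 1
    · ring
    · exact Finset.sum_congr rfl fun t _ => by ring
  have e2 : ((2 : ℤ) ^ (T + 1) * (2 * n)) = 2 * (2 ^ (T + 1) * n) := by ring
  rw [e1, e2, Int.mul_ediv_mul_of_pos _ _ (by norm_num)] at h4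
  exact h4

end Pool.Agent.Work.MP_85af13_lc.G
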