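import Pool.Agent.Work.MP_85af13_lc.G.C.Bits
import Pool.Agent.Work.MP_85af13_lc.G.C.Prog

set_option autoImplicit false
set_option linter.unusedVariables false
set_option linter.unusedSimpArgs false

/-!
# Rows and the chip-firing inequalities

PROOF. `n = I.2.length`, `T = b = bdI I`. Suppose `∀ u v < n, x v ≤ x u + 2 ^ b` and `v < n` (so `n > 0`). `uVal I x v t p = x (uTgt I v t p) + wgt (uEdge ..)` with `wgt = 0` for `p ≠ 0` and
`wgt ∈ {-1, 0, 1}` for `p = 0` (`sDig_val`); let `lo = min_u x u - 1`, `hi = max_u x u + 1` (over `u < n`), `hi - lo ≤ 2 ^ b + 2 ≤ 2 ^ (b+1)`. `prog_spec` gives that the first register is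
`Y / (2 ^ (T+1) * n)` with `Y = n x_v + Σ_t 2 ^ t Σ_p uVal`. `Y = 2 ^ (T+1) n x_v + Σ_u m(u,v) (x_u - x_v) + outDeg v - 1 - chips v`: `x (uTgt I v t p) = x v + (digit t of m(p,v)) (x p - x v)`
(`mlB`), `bits_sum` with `mlB_lt` and `binVal_mlB`, `Σ_{t ≤ T} 2 ^ t = 2 ^ (T+1) - 1`, `sDig_sum`, exchange of sums (`Finset.sum_comm`), `sum_range_fin`-like conversion to sums over `Fin n`
(`Finset.sum_range`), `inDeg v = Σ_u m(u,v)`. So `x v ≤ Y / (2 ^ (T+1) n)` iff `2 ^ (T+1) n x v ≤ Y` (`Int.le_ediv_iff_mul_le`) iff `inDeg v * x v ≤ Σ_u m(u,v) x_u + outDeg v - 1 - chips v`.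
-/

namespace Pool.Agent.Work.MP_85af13_lc.G

open Pool.Agent.Work.PolyTime

private theorem uVal_eq (I : Inst) (x : ℕ → ℤ) (v t p : ℕ) : uVal I x v t p =
    x v + (if (mlB I p v).getD t false then 1 else 0) * (x p - x v) +
      (if p = 0 then wgt (uTgt I v t 0, sDig I v t) else 0) := by
  have h0 : ∀ q : ℕ, wgt (q, false, []) = 0 := fun q => by simp [wgt, binVal]
  unfold uVal uEdge
  by_cases hp : p = 0
  · subst hp
    simp only [decide_true, cond_true, if_true, uTgt]
    cases (mlB I 0 v).getD t false <;> simp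
  · simp only [hp, decide_false, cond_false, if_false, h0, uTgt]
    cases (mlB I p v).getD t false <;> simp

private theorem pow_sum (T : ℕ) : ∑ t ∈ Finset.range T, (2 : ℤ) ^ t = 2 ^ T - 1 := by
  induction T with
  | zero => simp
  | succ T ih =>
    rw [Finset.sum_range_succ, ih]
    ring

private theorem total (I : Inst) (x : ℕ → ℤ) (v : Fin I.2.length) :
    (I.2.length : ℤ) * x v + ∑ t ∈ Finset.range (bdI I + 1), 2 ^ t *
      ∑ p ∈ Finset.range I.2.length, uVal I x v t p =
    2 ^ (bdI I + 1) * I.2.length * x v +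
      (∑ u : Fin I.2.length, ((graphOf I).m u v : ℤ) * (x u - x v)) +
      ((graphOf I).outDeg v - 1 - chipsOf I v) := by
  have hn : 0 ∈ Finset.range I.2.length := Finset.mem_range.2 (by have := v.2; omega)
  have e1 : ∀ t, ∑ p ∈ Finset.range I.2.length, uVal I x v t p =
      (I.2.length : ℤ) * x v + (∑ p ∈ Finset.range I.2.length,
        (if (mlB I p v).getD t false then 1 else 0) * (x p - x v)) +
        wgt (uTgt I v t 0, sDig I v t) := by
    intro t
    simp only [uVal_eq, Finset.sum_add_distrib]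
    rw [Finset.sum_const, Finset.card_range, Finset.sum_ite_eq' _ 0, if_pos hn, nsmul_eq_mul]
  have e2 : ∑ t ∈ Finset.range (bdI I + 1), (2 : ℤ) ^ t *
      ∑ p ∈ Finset.range I.2.length, (if (mlB I p v).getD t false then 1 else 0) * (x p - x v) =
      ∑ u : Fin I.2.length, ((graphOf I).m u v : ℤ) * (x u - x v) := by
    have e3 : ∑ u : Fin I.2.length, ((graphOf I).m u v : ℤ) * (x u - x v) =
        ∑ p ∈ Finset.range I.2.length, ((mult I p v : ℕ) : ℤ) * (x p - x v) :=
      (Finset.sum_range (fun p => ((mult I p v : ℕ) : ℤ) * (x p - x v))).symm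
    rw [e3]
    simp only [Finset.mul_sum]
    rw [Finset.sum_comm]
    refine Finset.sum_congr rfl fun p _ => ?_
    rw [← binVal_mlB, ← bits_sum (bdI I) (mlB I p v) (mlB_lt I p v), Finset.sum_mul]
    refine Finset.sum_congr rfl fun t _ => ?_
    ring
  simp only [e1, mul_add, Finset.sum_add_distrib]
  rw [e2, sDig_sum I v (fun t => uTgt I v t 0), ← Finset.sum_mul, pow_sum]
  ring

theorem rowSol_iff (I : Inst) (x : ℕ → ℤ) : RowSol I x ↔
    (∀ u < I.2.length, ∀ v < I.2.length, x v ≤ x u + 2 ^ bdI I) ∧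
    ∀ v : Fin I.2.length, ((graphOf I).inDeg v : ℤ) * x v ≤
      ∑ u : Fin I.2.length, ((graphOf I).m u v : ℤ) * x u + (graphOf I).outDeg v - 1 -
        chipsOf I v := by
  unfold RowSol
  refine and_congr_right fun h1 => ?_
  have hv : ∀ v : Fin I.2.length,
      x v ≤ runR I.2.length (uVal I x v) (progI I) (fun _ => x v) 0 ↔
      ((graphOf I).inDeg v : ℤ) * x v ≤
        ∑ u : Fin I.2.length, ((graphOf I).m u v : ℤ) * x u + (graphOf I).outDeg v - 1 -
          chipsOf I v := by
    intro v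
    have hn : 0 < I.2.length := by have := v.2; omega
    obtain ⟨u0, hu0, hmin⟩ := Finset.exists_min_image (Finset.range I.2.length) x
      ⟨0, Finset.mem_range.2 hn⟩
    rw [Finset.mem_range] at hu0
    have hlo : ∀ u < I.2.length, x u0 ≤ x u := fun u hu => hmin u (Finset.mem_range.2 hu)
    have hhi : ∀ u < I.2.length, x u ≤ x u0 + 2 ^ bdI I := fun u hu => h1 u0 hu0 u hu
    have hb2 : (2 : ℤ) ≤ 2 ^ bdI I := by
      have : (2 : ℤ) ^ 1 ≤ 2 ^ bdI I := pow_le_pow_right₀ (by norm_num) (by unfold bdI; omega)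
      simpa using this
    have hU : ∀ t ≤ bdI I, ∀ p < I.2.length, x u0 - 1 ≤ uVal I x v t p ∧
        uVal I x v t p ≤ x u0 + 2 ^ bdI I + 1 := by
      intro t _ p hp
      rw [uVal_eq]
      have a1 := hlo p hp
      have a2 := hhi p hp
      have a3 := hlo v v.2
      have a4 := hhi v v.2
      have a5 : -1 ≤ (if p = 0 then wgt (uTgt I v t 0, sDig I v t) else 0) ∧
          (if p = 0 then wgt (uTgt I v t 0, sDig I v t) else 0) ≤ 1 := by
        by_cases hp0 : p = 0
        · rw [if_pos hp0, sDig_val]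
          constructor <;> split_ifs <;> norm_num
        · rw [if_neg hp0]
          norm_num
      by_cases hd : (mlB I p v).getD t false = true
      · rw [if_pos hd]
        constructor <;> linarith [a5.1, a5.2]
      · rw [if_neg hd]
        constructor <;> linarith [a5.1, a5.2]
    have hp := prog_spec I.2.length (bdI I) (bdI I) hn (uVal I x v) (x u0 - 1)
      (x u0 + 2 ^ bdI I + 1) (by rw [pow_succ]; linarith) (x v) (by linarith [hlo v v.2])
      (by linarith [hhi v v.2]) hU
    have hn' : (0 : ℤ) < I.2.length := by exact_mod_cast hn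
    rw [progI, hp, total, Int.le_ediv_iff_mul_le (by positivity)]
    have e : (∑ u : Fin I.2.length, ((graphOf I).m u v : ℤ) * (x u - x v)) =
        ∑ u : Fin I.2.length, ((graphOf I).m u v : ℤ) * x u - ((graphOf I).inDeg v : ℤ) * x v := by
      rw [MultiDigraph.inDeg, Nat.cast_sum, Finset.sum_mul, ← Finset.sum_sub_distrib]
      exact Finset.sum_congr rfl fun u _ => by ring
    rw [e]
    constructor <;> intro h <;> linarith
  constructor
  · intro h v
    exact (hv v).1 (h v v.2)
  · intro h v hv'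
    exact (hv ⟨v, hv'⟩).2 (h ⟨v, hv'⟩)

end Pool.Agent.Work.MP_85af13_lc.G
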