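import Pool.Agent.Work.MP_85af13_lc.G.C.Round

set_option autoImplicit false
set_option linter.unusedVariables false
set_option linter.unusedSimpArgs false

/-!
# The balancing program

PROOF. `scale_spec`: `scaleP (2n) k` consists of `2 n` rounds; by induction on the number `m` of rounds (`List.range_succ`, `List.flatMap_append`, `runR_append`) with
`round_spec`: sorted, same sum, first register not smaller, last register not larger (so the range stays `≤ 2 ^ (k+1)`), and `cnt ≤ cnt r - m`. `cnt r ≤ 2 n` (card of a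
filter of `range (2n)`), so after `2 n` rounds `cnt = 0`, in particular the register `2 n - 1` does not exceed the first one by more than `2 ^ k`.
`bal_spec`: `balP (2n) b` uses the scales `b, b - 1, .., 0`; by induction on the number of scales done: after the scales `b, .., b - i` the range is `≤ 2 ^ (b - i)`.
-/

namespace Pool.Agent.Work.MP_85af13_lc.G

private theorem rounds_spec (n k : ℕ) (hn : 0 < n) (U : ℕ → ℕ → ℤ) (r : ℕ → ℤ) (hs : Srt (2 * n) r)
    (hr : r (2 * n - 1) ≤ r 0 + 2 ^ (k + 1)) (m : ℕ) :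
    Srt (2 * n) (runR n U ((List.range m).flatMap fun _ => (1, k) :: sortP (2 * n)) r) ∧
    sm (2 * n) (runR n U ((List.range m).flatMap fun _ => (1, k) :: sortP (2 * n)) r) =
      sm (2 * n) r ∧
    r 0 ≤ runR n U ((List.range m).flatMap fun _ => (1, k) :: sortP (2 * n)) r 0 ∧
    runR n U ((List.range m).flatMap fun _ => (1, k) :: sortP (2 * n)) r (2 * n - 1) ≤
      r (2 * n - 1) ∧
    cnt (2 * n) (2 ^ k) (runR n U ((List.range m).flatMap fun _ => (1, k) :: sortP (2 * n)) r) ≤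
      cnt (2 * n) (2 ^ k) r - m := by
  induction m with
  | zero => exact ⟨hs, rfl, le_refl _, le_refl _, le_refl _⟩
  | succ m ih =>
    obtain ⟨h1, h2, h3, h4, h5⟩ := ih
    rw [List.range_succ, List.flatMap_append, List.flatMap_singleton, runR_append]
    obtain ⟨g1, g2, g3, g4, g5⟩ := round_spec n k hn U _ h1 (by linarith)
    exact ⟨g1, g2.trans h2, h3.trans g3, g4.trans h4, g5.trans (by omega)⟩

theorem scale_spec (n k : ℕ) (hn : 0 < n) (U : ℕ → ℕ → ℤ) (r : ℕ → ℤ) (hs : Srt (2 * n) r)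
    (hr : r (2 * n - 1) ≤ r 0 + 2 ^ (k + 1)) :
    Srt (2 * n) (runR n U (scaleP (2 * n) k) r) ∧
    sm (2 * n) (runR n U (scaleP (2 * n) k) r) = sm (2 * n) r ∧
    r 0 ≤ runR n U (scaleP (2 * n) k) r 0 ∧
    runR n U (scaleP (2 * n) k) r (2 * n - 1) ≤ r (2 * n - 1) ∧
    runR n U (scaleP (2 * n) k) r (2 * n - 1) ≤ runR n U (scaleP (2 * n) k) r 0 + 2 ^ k := by
  obtain ⟨h1, h2, h3, h4, h5⟩ := rounds_spec n k hn U r hs hr (2 * n)
  refine ⟨h1, h2, h3, h4, ?_⟩
  have h6 : cnt (2 * n) (2 ^ k) r ≤ 2 * n := by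
    unfold cnt
    exact (Finset.card_filter_le _ _).trans (le_of_eq (Finset.card_range _))
  have h7 : cnt (2 * n) (2 ^ k) (runR n U (scaleP (2 * n) k) r) = 0 := by
    have h8 : cnt (2 * n) (2 ^ k) (runR n U (scaleP (2 * n) k) r) ≤
      cnt (2 * n) (2 ^ k) r - 2 * n := h5
    omega
  unfold cnt at h7
  rw [Finset.card_eq_zero, Finset.filter_eq_empty_iff] at h7
  exact not_lt.1 (h7 (Finset.mem_range.2 (by omega)))

private theorem scales_spec (n b : ℕ) (hn : 0 < n) (U : ℕ → ℕ → ℤ) (r : ℕ → ℤ) (hs : Srt (2 * n) r)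
    (hr : r (2 * n - 1) ≤ r 0 + 2 ^ (b + 1)) (m : ℕ) (hm : m ≤ b + 1) :
    Srt (2 * n) (runR n U ((List.range m).flatMap fun i => scaleP (2 * n) (b - i)) r) ∧
    sm (2 * n) (runR n U ((List.range m).flatMap fun i => scaleP (2 * n) (b - i)) r) =
      sm (2 * n) r ∧
    r 0 ≤ runR n U ((List.range m).flatMap fun i => scaleP (2 * n) (b - i)) r 0 ∧
    runR n U ((List.range m).flatMap fun i => scaleP (2 * n) (b - i)) r (2 * n - 1) ≤
      r (2 * n - 1) ∧
    runR n U ((List.range m).flatMap fun i => scaleP (2 * n) (b - i)) r (2 * n - 1) ≤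
      runR n U ((List.range m).flatMap fun i => scaleP (2 * n) (b - i)) r 0 + 2 ^ (b + 1 - m) := by
  induction m with
  | zero => exact ⟨hs, rfl, le_refl _, le_refl _, hr⟩
  | succ m ih =>
    obtain ⟨h1, h2, h3, h4, h5⟩ := ih (by omega)
    rw [List.range_succ, List.flatMap_append, List.flatMap_singleton, runR_append]
    have e : b + 1 - m = b - m + 1 := by omega
    rw [e] at h5
    obtain ⟨g1, g2, g3, g4, g5⟩ := scale_spec n (b - m) hn U _ h1 h5
    have e2 : b + 1 - (m + 1) = b - m := by omega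
    rw [e2]
    exact ⟨g1, g2.trans h2, h3.trans g3, g4.trans h4, g5⟩

theorem bal_spec (n b : ℕ) (hn : 0 < n) (U : ℕ → ℕ → ℤ) (r : ℕ → ℤ) (hs : Srt (2 * n) r)
    (hr : r (2 * n - 1) ≤ r 0 + 2 ^ (b + 1)) :
    Blc (2 * n) (runR n U (balP (2 * n) b) r) ∧
    sm (2 * n) (runR n U (balP (2 * n) b) r) = sm (2 * n) r ∧
    r 0 ≤ runR n U (balP (2 * n) b) r 0 ∧
    runR n U (balP (2 * n) b) r (2 * n - 1) ≤ r (2 * n - 1) := by
  obtain ⟨h1, h2, h3, h4, h5⟩ := scales_spec n b hn U r hs hr (b + 1) (le_refl _)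
  rw [Nat.sub_self, pow_zero] at h5
  exact ⟨⟨h1, h5⟩, h2, h3, h4⟩

end Pool.Agent.Work.MP_85af13_lc.G
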