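import Pool.Agent.Work.MP_85af13_lc.G.CDefs
import Pool.Agent.Work.MP_85af13_lc.UP

set_option autoImplicit false
set_option linter.unusedVariables false
set_option linter.unusedSimpArgs false

/-!
# Binary digits and bounds

PROOF. `bits_sum`: induction on `T` generalizing `l` (or on `l`): `binVal (b :: l) = b.toNat + 2 * binVal l`, `Finset.sum_range_succ'`; if `binVal l < 2 ^ (T+1)` the digits with index `> T` do not contribute.
For `T = 0`: `binVal (b :: l) < 2` forces `binVal l = 0`. Bounds (`bdI I = 6 * s + 12`, `s = (code I).ser.length = sz I`): `mult_le`, `deg_bound` (`n * Σ outDeg < 2 ^ (5 s + 2)` and `n ≥ 1`, `outDeg v ≤ Σ outDeg`), `chips_bound`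
or `entry_le` + `sz_snd_le` (UP.lean; `chipsOf I v ≤ 2 ^ s`). The sum `Σ_t 2 ^ t * wgt`-contribution of `sDig`: `sInt`-like value of `sDig I v t` is (digit of the degree) - (digit of chips + 1).
-/

namespace Pool.Agent.Work.MP_85af13_lc.G

open Pool.Agent.Work.PolyTime
open Pool.Agent.Work.MP_63b90e_lc (addB shiftB)

private theorem bits_aux (l : List Bool) : ∀ k : ℕ, binVal l < 2 ^ k →
    ∑ t ∈ Finset.range k, (2 : ℤ) ^ t * (if l.getD t false then 1 else 0) = binVal l := by
  induction l with
  | nil =>
    intro k _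
    simp [binVal]
  | cons b l ih =>
    intro k hk
    obtain _ | k := k
    · rw [pow_zero, Nat.lt_one_iff] at hk
      rw [hk]
      simp
    · rw [Finset.sum_range_succ']
      have h0 : binVal l < 2 ^ k := by
        rw [binVal, pow_succ] at hk
        omega
      have h1 := ih k h0
      have h2 : ∑ t ∈ Finset.range k, (2 : ℤ) ^ (t + 1) * (if (b :: l).getD (t + 1) false then 1 else 0) =
          2 * ∑ t ∈ Finset.range k, (2 : ℤ) ^ t * (if l.getD t false then 1 else 0) := by
        rw [Finset.mul_sum]
        refine Finset.sum_congr rfl fun t _ => ?_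
        rw [List.getD_cons_succ, pow_succ]
        ring
      rw [h2, h1, List.getD_cons_zero, binVal]
      cases b <;> simp
      ring

theorem bits_sum (T : ℕ) (l : List Bool) (h : binVal l < 2 ^ (T + 1)) :
    ∑ t ∈ Finset.range (T + 1), (2 : ℤ) ^ t * (if l.getD t false then 1 else 0) = binVal l :=
  bits_aux l (T + 1) h

private theorem bd_eq (I : Inst) : bdI I = 6 * sz I + 12 := rfl

theorem mlB_lt (I : Inst) (u v : ℕ) : binVal (mlB I u v) < 2 ^ (bdI I + 1) := by
  rw [binVal_mlB]
  refine (mult_le I u v).trans_lt (Nat.pow_lt_pow_right (by norm_num) ?_)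
  rw [bd_eq]
  omega

theorem degL_lt (I : Inst) (v : Fin I.2.length) : binVal (degL I v) < 2 ^ (bdI I + 1) := by
  rw [binVal_degL]
  have h1 : (graphOf I).outDeg v ≤ I.2.length * ∑ u, (graphOf I).outDeg u := by
    have h2 : (graphOf I).outDeg v ≤ ∑ u, (graphOf I).outDeg u :=
      Finset.single_le_sum (f := fun u => (graphOf I).outDeg u) (fun _ _ => Nat.zero_le _)
        (Finset.mem_univ v)
    have h3 : 1 ≤ I.2.length := by
      have := v.2
      omega
    exact h2.trans (Nat.le_mul_of_pos_left _ h3)
  refine (h1.trans_lt (deg_bound I)).trans (Nat.pow_lt_pow_right (by norm_num) ?_)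
  rw [bd_eq]
  omega

theorem chip_lt (I : Inst) (v : Fin I.2.length) :
    binVal (addB [true] (I.2.getD v [])) < 2 ^ (bdI I + 1) := by
  rw [binVal_addB]
  have h1 : binVal (I.2.getD v []) ≤ 2 ^ sz I :=
    (entry_le I.2 v).trans (Nat.pow_le_pow_right (by norm_num) (sz_snd_le I))
  have h2 : binVal [true] = 1 := by simp [binVal]
  have h3 : 1 ≤ 2 ^ sz I := Nat.one_le_two_pow
  have h4 : 2 ^ sz I + 2 ^ sz I = 2 ^ (sz I + 1) := by rw [pow_succ]; ring
  have h5 : 2 ^ (sz I + 1) < 2 ^ (bdI I + 1) := Nat.pow_lt_pow_right (by norm_num) (by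
    rw [bd_eq]
    omega)
  omega

/-- The weights of the edges of the first loaded register. -/
theorem sDig_val (I : Inst) (v t q : ℕ) : wgt (q, sDig I v t) =
    (if (degL I v).getD t false then 1 else 0) -
      (if (addB [true] (I.2.getD v [])).getD t false then 1 else 0) := by
  unfold sDig wgt
  generalize (degL I v).getD t false = a
  generalize (addB [true] (I.2.getD v [])).getD t false = b
  cases a <;> cases b <;> simp [binVal]

/-- The weights contribute the degree minus one minus the number of chips. -/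
theorem sDig_sum (I : Inst) (v : Fin I.2.length) (q : ℕ → ℕ) :
    ∑ t ∈ Finset.range (bdI I + 1), (2 : ℤ) ^ t * wgt (q t, sDig I v t) =
      (graphOf I).outDeg v - 1 - chipsOf I v := by
  have h1 := bits_sum _ _ (degL_lt I v)
  have h2 := bits_sum _ _ (chip_lt I v)
  rw [binVal_degL] at h1
  rw [binVal_addB] at h2
  have h3 : binVal [true] = 1 := by simp [binVal]
  calc ∑ t ∈ Finset.range (bdI I + 1), (2 : ℤ) ^ t * wgt (q t, sDig I v t) =
      ∑ t ∈ Finset.range (bdI I + 1), ((2 : ℤ) ^ t * (if (degL I v).getD t false then 1 else 0) -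
        (2 : ℤ) ^ t * (if (addB [true] (I.2.getD v [])).getD t false then 1 else 0)) := by
        refine Finset.sum_congr rfl fun t _ => ?_
        rw [sDig_val, mul_sub]
    _ = (graphOf I).outDeg v - 1 - chipsOf I v := by
        rw [Finset.sum_sub_distrib, h1, h2, h3, chipsOf]
        push_cast
        ring

end Pool.Agent.Work.MP_85af13_lc.G
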