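import Pool.Agent.Work.MP_85af13_lc.G.CDefs
import Pool.Agent.Work.MP_85af13_lc.UP

set_option autoImplicit false
set_option linter.unusedVariables false
set_option linter.unusedSimpArgs false

/-!
# Halting and bounded scripts

PROOF. `terminates_iff` (ChipFiring.lean): `Terminates x ↔ ∃ z, ∀ v, x v - lap z v < outDeg v`, `lap z v = outDeg v * z v - Σ_u m(u,v) z u`, `outDeg = inDeg`. Put `x = - z` (on `Fin n`, extended by `0` to `ℕ`). The
differences: `lap x v ≤ outDeg v - 1 - chips v ≤ outDeg v`, so `script_le` (Rep.lean, with `cuts_of_eulerian`) gives `x v ≤ x u + n * Σ outDeg ≤ x u + 2 ^ (5 * sz I + 2) ≤ x u + 2 ^ bdI I` (`deg_bound`, `sz I =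
(code I).ser.length`).
-/

namespace Pool.Agent.Work.MP_85af13_lc.G

open Pool.Agent.Work.PolyTime

theorem terminates_iff_bounded (I : Inst) (hE : (graphOf I).Eulerian) :
    (graphOf I).Terminates (chipsOf I) ↔ ∃ x : ℕ → ℤ,
      (∀ u < I.2.length, ∀ v < I.2.length, x v ≤ x u + 2 ^ bdI I) ∧
      ∀ v : Fin I.2.length, ((graphOf I).inDeg v : ℤ) * x v ≤
        ∑ u : Fin I.2.length, ((graphOf I).m u v : ℤ) * x u + (graphOf I).outDeg v - 1 -
          chipsOf I v := by
  have hd : ∀ v, (graphOf I).outDeg v = (graphOf I).inDeg v := hE.2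
  rw [(graphOf I).terminates_iff hd]
  constructor
  · rintro ⟨z, hz⟩
    refine ⟨fun j => if h : j < I.2.length then -z ⟨j, h⟩ else 0, fun u hu v hv => ?_, fun v => ?_⟩
    · have h1 := (graphOf I).script_le hd ((graphOf I).cuts_of_eulerian hE) ⟨u, hu⟩ (-z)
        (graphOf I).outDeg (fun w _ => by
          rw [(graphOf I).lap_neg]
          have h2 := hz w
          have h3 : (0 : ℤ) ≤ chipsOf I w := by positivity
          linarith) ⟨v, hv⟩
      beta_reduce
      rw [dif_pos hu, dif_pos hv]
      have h4 := deg_bound I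
      have h5 : (2 : ℕ) ^ (5 * sz I + 2) ≤ 2 ^ bdI I := by
        refine Nat.pow_le_pow_right (by norm_num) ?_
        have h6 : bdI I = 6 * sz I + 12 := rfl
        omega
      have h7 : ((I.2.length * ∑ u, (graphOf I).outDeg u : ℕ) : ℤ) ≤ ((2 ^ bdI I : ℕ) : ℤ) :=
        Int.ofNat_le.2 (h4.le.trans h5)
      rw [Fintype.card_fin] at h1
      simp only [Pi.neg_apply] at h1
      push_cast at h1 h7
      linarith
    · have h1 := hz v
      simp only [MultiDigraph.lap] at h1
      have h2 : ∀ u : Fin I.2.length, (if h : (u : ℕ) < I.2.length then -z ⟨u, h⟩ else 0) = -z u :=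
        fun u => dif_pos u.2
      simp only [h2, mul_neg, Finset.sum_neg_distrib]
      rw [← hd v]
      linarith
  · rintro ⟨x, -, hx⟩
    refine ⟨fun v => -x v, fun v => ?_⟩
    have h1 := hx v
    simp only [MultiDigraph.lap, mul_neg, Finset.sum_neg_distrib]
    rw [hd v] at h1 ⊢
    linarith

end Pool.Agent.Work.MP_85af13_lc.G
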