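import Pool.Agent.Work.MP_85af13_lc.G.CDefs

/-!
Rows of registers: sorted rows, sums, balanced rows (definitions and the simplest facts).
-/

set_option autoImplicit false

namespace Pool.Agent.Work.MP_85af13_lc.G

/-- The registers of a row as a multiset. -/
def ms (w : ℕ) (r : ℕ → ℤ) : Multiset ℤ := (Multiset.range w).map r

/-- The sum of the registers. -/
def sm (w : ℕ) (r : ℕ → ℤ) : ℤ := ∑ i ∈ Finset.range w, r i

/-- Sorted rows. -/
def Srt (w : ℕ) (r : ℕ → ℤ) : Prop := ∀ i j, i ≤ j → j < w → r i ≤ r j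

/-- Rows with values in an interval. -/
def Inn (w : ℕ) (lo hi : ℤ) (r : ℕ → ℤ) : Prop := ∀ i < w, lo ≤ r i ∧ r i ≤ hi

/-- Balanced rows: sorted, and the last register exceeds the first one by at most `1`. -/
def Blc (w : ℕ) (r : ℕ → ℤ) : Prop := Srt w r ∧ r (w - 1) ≤ r 0 + 1

/-- The number of registers which exceed the first one by more than `c`. -/
def cnt (w : ℕ) (c : ℤ) (r : ℕ → ℤ) : ℕ :=
  ((Finset.range w).filter fun i => r 0 + c < r i).card

theorem runR_append (n : ℕ) (U : ℕ → ℕ → ℤ) (l m : List Op) (r : ℕ → ℤ) :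
    runR n U (l ++ m) r = runR n U m (runR n U l r) := by
  simp [runR, List.foldl_append]

theorem runR_cons (n : ℕ) (U : ℕ → ℕ → ℤ) (o : Op) (m : List Op) (r : ℕ → ℤ) :
    runR n U (o :: m) r = runR n U m (stepR n U o r) := rfl

theorem runR_nil (n : ℕ) (U : ℕ → ℕ → ℤ) (r : ℕ → ℤ) : runR n U [] r = r := rfl

theorem sm_eq_ms (w : ℕ) (r : ℕ → ℤ) : sm w r = (ms w r).sum := rfl

theorem sm_of_ms {w : ℕ} {r r' : ℕ → ℤ} (h : ms w r' = ms w r) : sm w r' = sm w r := by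
  rw [sm_eq_ms, sm_eq_ms, h]

theorem mem_ms {w : ℕ} {r : ℕ → ℤ} {y : ℤ} : y ∈ ms w r ↔ ∃ i < w, r i = y := by
  simp [ms]

theorem inn_of_ms {w : ℕ} {lo hi : ℤ} {r r' : ℕ → ℤ} (h : ms w r' = ms w r)
    (hr : Inn w lo hi r) : Inn w lo hi r' := by
  intro i hi'
  have h1 : r' i ∈ ms w r' := mem_ms.2 ⟨i, hi', rfl⟩
  rw [h] at h1
  obtain ⟨j, hj, hj2⟩ := mem_ms.1 h1
  rw [← hj2]
  exact hr j hj

end Pool.Agent.Work.MP_85af13_lc.G
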