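import Pool.Agent.Work.MP_85af13_lc.G.C.Nodes
import Pool.Agent.Work.MP_85af13_lc.G.C.Row

set_option autoImplicit false
set_option linter.unusedVariables false
set_option linter.unusedSimpArgs false

/-!
# The min-max system computes the program

PROOF. `n = I.2.length`, `L = (progI I).length`, `row v l := runR n (uVal I x v) ((progI I).take l) (fun _ => x v)`; `row v 0 = fun _ => x v`, `row v (l+1) = stepR n (uVal I x v) (progI I)[l] (row v l)`
(`List.take_succ`, `runR_append`), `row v L = runR .. (progI I) ..`. `wgt (e0 q) = 0`, `wgt (q, false, pw k) = 2 ^ k`, `wgt (q, true, pw k) = - 2 ^ k` (`binVal_shiftB`).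
(←) Given `RowSol I x`, let `y` be `x v` at `v < n` and `row v l i` at the vertex `nodeI n L v l i` (well defined by `nodeI_inj`; or define `y q` for `q ≥ n` by `v = (q-n) / ((L+1) (2n))` etc.). `Sol`: by
`mmOf_cases`; base vertices by `mmOf_base` and `RowSol`; the register `i` of the row `l + 1` by `mmOf_node`: the gate computes exactly `stepR` (cases `o.1 = 0`, `1`, else; `i = o.2`, `i = o.2 + 1`, `i = 0`, `i = 2 n - 1`,
`i < n`); a maximum is attained by one of the two edges.
(→) Given a solution `y`, let `x := y`. By induction on `l ≤ L`: `y (nodeI n L v l i) ≤ row v l i` for all `i < 2 n`: the gate gives `y (node) ≤` the operation applied to the values `y` of the previous row (`uVal I x v t p` for loaded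
registers), and operations are monotone (`min_le_min`, `max_le_max`). All indices are `< 2 n` by `progI_ok`. For `l = L`, `i = 0`: `x v ≤ y (nodeI n L v L 0) ≤ row v L 0` (`mmOf_base`), and `x v ≤ x u + 2 ^ bdI I`.
-/

namespace Pool.Agent.Work.MP_85af13_lc.G

open Pool.Agent.Work.PolyTime

theorem wgt_e0 (q : ℕ) : wgt (e0 q) = 0 := by
  simp [wgt, e0, binVal]

theorem wgt_pw (q k : ℕ) : wgt (q, false, pw k) = 2 ^ k ∧ wgt (q, true, pw k) = -2 ^ k := by
  have h : binVal (pw k) = 2 ^ k := by
    rw [pw, binVal_shiftB]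
    simp [binVal]
  constructor
  · simp [wgt, h]
  · simp [wgt, h]

/-- the constraint of a vertex -/
private def NodeOk (y : ℕ → ℤ) (g : Bool × List WEdge) (Y : ℤ) : Prop :=
  (g.1 = true → ∃ e ∈ g.2, Y ≤ y e.1 + wgt e) ∧ (g.1 = false → ∀ e ∈ g.2, Y ≤ y e.1 + wgt e)

private theorem nodeOk_min1 (y : ℕ → ℤ) (a : WEdge) (Y : ℤ) :
    NodeOk y (false, [a]) Y ↔ Y ≤ y a.1 + wgt a := by
  simp [NodeOk]

private theorem nodeOk_min2 (y : ℕ → ℤ) (a b : WEdge) (Y : ℤ) :
    NodeOk y (false, [a, b]) Y ↔ Y ≤ min (y a.1 + wgt a) (y b.1 + wgt b) := by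
  simp [NodeOk]

private theorem nodeOk_max2 (y : ℕ → ℤ) (a b : WEdge) (Y : ℤ) :
    NodeOk y (true, [a, b]) Y ↔ Y ≤ max (y a.1 + wgt a) (y b.1 + wgt b) := by
  simp [NodeOk]

private theorem e0_fst (q : ℕ) : (e0 q).1 = q := rfl

private theorem gate_iff (I : Inst) (v : ℕ) (o : Op) (q : ℕ → ℕ) (i : ℕ) (y : ℕ → ℤ) (Y : ℤ) :
    NodeOk y (gateO I v o q i) Y ↔
      Y ≤ stepR I.2.length (uVal I y v) o (fun j => y (q j)) i := by
  rw [gateO, stepR]
  by_cases h0 : o.1 = 0
  · rw [decide_eq_true h0, cond_true, if_pos h0]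
    by_cases h1 : i = o.2
    · rw [decide_eq_true h1, cond_true, if_pos h1, nodeOk_min2, wgt_e0, wgt_e0, add_zero, add_zero]
      rfl
    · rw [decide_eq_false h1, cond_false, if_neg h1]
      by_cases h2 : i = o.2 + 1
      · rw [decide_eq_true h2, cond_true, if_pos h2, nodeOk_max2, wgt_e0, wgt_e0, add_zero,
          add_zero]
        rfl
      · rw [decide_eq_false h2, cond_false, if_neg h2, nodeOk_min1, wgt_e0, add_zero]
        rfl
  · rw [decide_eq_false h0, cond_false, if_neg h0]
    by_cases h1 : o.1 = 1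
    · rw [decide_eq_true h1, cond_true, if_pos h1]
      by_cases h2 : i = 0
      · rw [decide_eq_true h2, cond_true, if_pos h2, nodeOk_max2, wgt_e0, (wgt_pw _ _).2, add_zero,
          ← sub_eq_add_neg]
        rfl
      · rw [decide_eq_false h2, cond_false, if_neg h2]
        by_cases h3 : i = 2 * I.2.length - 1
        · rw [decide_eq_true h3, cond_true, if_pos h3, nodeOk_min2, wgt_e0, (wgt_pw _ _).1,
            add_zero]
          rfl
        · rw [decide_eq_false h3, cond_false, if_neg h3, nodeOk_min1, wgt_e0, add_zero]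
          rfl
    · rw [decide_eq_false h1, cond_false, if_neg h1]
      by_cases h2 : i < I.2.length
      · rw [decide_eq_true (show i + 1 ≤ I.2.length from h2), cond_true, if_pos h2, nodeOk_min1,
          wgt_e0, add_zero]
        rfl
      · rw [decide_eq_false (show ¬ i + 1 ≤ I.2.length from h2), cond_false, if_neg h2,
          nodeOk_min1]
        rfl

private theorem stepR_mono {n : ℕ} {U U' : ℕ → ℕ → ℤ} {o : Op} {r r' : ℕ → ℤ}
    (ho : (o.1 = 0 ∧ o.2 + 1 < 2 * n) ∨ o.1 = 1 ∨ o.1 = 2)
    (hU : ∀ p < n, U o.2 p ≤ U' o.2 p) (hr : ∀ j < 2 * n, r j ≤ r' j) (i : ℕ) (hi : i < 2 * n) :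
    stepR n U o r i ≤ stepR n U' o r' i := by
  rw [stepR, stepR]
  by_cases h0 : o.1 = 0
  · rw [if_pos h0, if_pos h0]
    have h1 : o.2 + 1 < 2 * n := by
      rcases ho with h | h | h
      · exact h.2
      · omega
      · omega
    by_cases h2 : i = o.2
    · rw [if_pos h2, if_pos h2]
      exact min_le_min (hr _ (by omega)) (hr _ h1)
    · rw [if_neg h2, if_neg h2]
      by_cases h3 : i = o.2 + 1
      · rw [if_pos h3, if_pos h3]
        exact max_le_max (hr _ (by omega)) (hr _ h1)
      · rw [if_neg h3, if_neg h3]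
        exact hr i hi
  · rw [if_neg h0, if_neg h0]
    by_cases h1 : o.1 = 1
    · rw [if_pos h1, if_pos h1]
      by_cases h2 : i = 0
      · rw [if_pos h2, if_pos h2]
        exact max_le_max (hr _ (by omega)) (sub_le_sub_right (hr _ (by omega)) _)
      · rw [if_neg h2, if_neg h2]
        by_cases h3 : i = 2 * n - 1
        · rw [if_pos h3, if_pos h3]
          exact min_le_min (hr _ (by omega)) (add_le_add_left (hr _ (by omega)) _)
        · rw [if_neg h3, if_neg h3]
          exact hr i hi
    · rw [if_neg h1, if_neg h1]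
      by_cases h2 : i < n
      · rw [if_pos h2, if_pos h2]
        exact hr _ (by omega)
      · rw [if_neg h2, if_neg h2]
        exact hU _ (by omega)

private theorem getD_mem (I : Inst) {l : ℕ} (hl : l < (progI I).length) :
    (progI I).getD l (0, 0) ∈ progI I := by
  rw [List.getD_eq_getElem _ _ hl]
  exact List.getElem_mem hl

private theorem ok_getD (I : Inst) {l : ℕ} (hl : l < (progI I).length) :
    (((progI I).getD l (0, 0)).1 = 0 ∧ ((progI I).getD l (0, 0)).2 + 1 < 2 * I.2.length) ∨
      ((progI I).getD l (0, 0)).1 = 1 ∨ ((progI I).getD l (0, 0)).1 = 2 := by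
  rcases progI_ok I _ (getD_mem I hl) with h | h | h
  · exact Or.inl h
  · exact Or.inr (Or.inl h.1)
  · exact Or.inr (Or.inr h.1)

private theorem uTgt_lt (I : Inst) (v t p : ℕ) (hv : v < I.2.length) (hp : p < I.2.length) :
    uTgt I v t p < I.2.length := by
  rw [uTgt]
  cases (mlB I p v).getD t false
  · exact hv
  · exact hp

private theorem row_succ (n : ℕ) (U : ℕ → ℕ → ℤ) (P : List Op) (r : ℕ → ℤ) {l : ℕ}
    (hl : l < P.length) :
    runR n U (P.take (l + 1)) r = stepR n U (P.getD l (0, 0)) (runR n U (P.take l) r) := by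
  rw [List.take_add_one, runR_append, List.getElem?_eq_getElem hl, List.getD_eq_getElem _ _ hl]
  rfl

theorem rowSol_of_feasible (I : Inst) (h : Feasible (mmOf I)) : ∃ x : ℕ → ℤ, RowSol I x := by
  obtain ⟨y, hy⟩ := h
  have hnode : ∀ v < I.2.length, ∀ l ≤ (progI I).length, ∀ i < 2 * I.2.length,
      NodeOk y (gate I v l i) (y (nodeI I.2.length (progI I).length v l i)) := by
    intro v hv l hl i hi
    have h1 := hy _ (nodeI_lt I v l i hv hl hi)
    rw [(mmOf_node I v l i hv hl hi).1, (mmOf_node I v l i hv hl hi).2] at h1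
    exact h1
  have hbase : ∀ v < I.2.length, ∀ e ∈ e0 (nodeI I.2.length (progI I).length v
      (progI I).length 0) :: (List.range I.2.length).map fun u => (u, false, pw (bdI I)),
      y v ≤ y e.1 + wgt e := by
    intro v hv
    have h1 := (hy v (by rw [mmOf_length]; omega)).2 (mmOf_base I v hv).1
    rw [(mmOf_base I v hv).2] at h1
    exact h1
  refine ⟨y, fun u hu v hv => ?_, fun v hv => ?_⟩
  · have h1 := hbase v hv (u, false, pw (bdI I))
      (List.mem_cons_of_mem _ (List.mem_map.2 ⟨u, List.mem_range.2 hu, rfl⟩))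
    rw [(wgt_pw _ _).1] at h1
    exact h1
  · have hrow : ∀ l ≤ (progI I).length, ∀ i < 2 * I.2.length,
        y (nodeI I.2.length (progI I).length v l i) ≤
          runR I.2.length (uVal I y v) ((progI I).take l) (fun _ => y v) i := by
      intro l
      induction l with
      | zero =>
        intro _ i hi
        have h1 := hnode v hv 0 (Nat.zero_le _) i hi
        have h2 : gate I v 0 i = (false, [e0 v]) := rfl
        rw [h2, nodeOk_min1, wgt_e0, add_zero] at h1
        exact h1
      | succ l ih =>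
        intro hl i hi
        have h1 := hnode v hv (l + 1) hl i hi
        have h2 : gate I v (l + 1) i = gateO I v ((progI I).getD l (0, 0))
            (nodeI I.2.length (progI I).length v l) i := rfl
        rw [h2, gate_iff] at h1
        rw [row_succ _ _ _ _ hl]
        refine h1.trans (stepR_mono (ok_getD I hl) (fun p _ => le_refl _) ?_ i hi)
        intro j hj
        exact ih (by omega) j hj
    have h1 := hbase v hv _ List.mem_cons_self
    rw [wgt_e0, add_zero] at h1
    have h2 := hrow (progI I).length le_rfl 0 (by omega)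
    rw [List.take_length] at h2
    exact h1.trans h2

theorem feasible_of_rowSol (I : Inst) (x : ℕ → ℤ) (h : RowSol I x) : Feasible (mmOf I) := by
  classical
  let row : ℕ → ℕ → ℕ → ℤ := fun v l i =>
    runR I.2.length (uVal I x v) ((progI I).take l) (fun _ => x v) i
  let Q : ℕ → ℕ × ℕ × ℕ → Prop := fun q t => t.1 < I.2.length ∧ t.2.1 ≤ (progI I).length ∧
    t.2.2 < 2 * I.2.length ∧ q = nodeI I.2.length (progI I).length t.1 t.2.1 t.2.2
  let y : ℕ → ℤ := fun q => if q < I.2.length then x q else
    if h2 : ∃ t, Q q t then row h2.choose.1 h2.choose.2.1 h2.choose.2.2 else 0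
  have hy1 : ∀ v < I.2.length, y v = x v := fun v hv => if_pos hv
  have hy2 : ∀ v < I.2.length, ∀ l ≤ (progI I).length, ∀ i < 2 * I.2.length,
      y (nodeI I.2.length (progI I).length v l i) = row v l i := by
    intro v hv l hl i hi
    have hex : ∃ t, Q (nodeI I.2.length (progI I).length v l i) t :=
      ⟨(v, l, i), hv, hl, hi, rfl⟩
    have hsp := hex.choose_spec
    obtain ⟨e1, e2, e3⟩ := nodeI_inj _ _ _ _ _ _ _ _ hl hsp.2.1 hi hsp.2.2.1 hsp.2.2.2
    simp only [y]
    rw [if_neg (by rw [nodeI]; omega), dif_pos hex, ← e1, ← e2, ← e3]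
  refine ⟨y, fun q hq => ?_⟩
  rcases mmOf_cases I q hq with hq | ⟨v, l, i, hv, hl, hi, rfl⟩
  · rw [(mmOf_base I q hq).1, (mmOf_base I q hq).2]
    refine ⟨fun hh => absurd hh (by decide), fun _ e he => ?_⟩
    rcases List.mem_cons.1 he with rfl | he
    · rw [wgt_e0, add_zero, hy1 q hq, e0_fst, hy2 q hq _ le_rfl 0 (by omega)]
      have h1 := h.2 q hq
      simp only [row]
      rw [List.take_length]
      exact h1
    · obtain ⟨u, hu, rfl⟩ := List.mem_map.1 he
      have hu' := List.mem_range.1 hu
      rw [(wgt_pw _ _).1, hy1 q hq, hy1 u hu']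
      exact h.1 u hu' q hq
  · rw [(mmOf_node I v l i hv hl hi).1, (mmOf_node I v l i hv hl hi).2]
    change NodeOk y (gate I v l i) _
    rw [hy2 v hv l hl i hi]
    rcases l with _ | l
    · have h2 : gate I v 0 i = (false, [e0 v]) := rfl
      rw [h2, nodeOk_min1, wgt_e0, add_zero, e0_fst, hy1 v hv]
      exact le_refl _
    · have h2 : gate I v (l + 1) i = gateO I v ((progI I).getD l (0, 0))
          (nodeI I.2.length (progI I).length v l) i := rfl
      rw [h2, gate_iff]
      simp only [row]
      rw [row_succ _ _ _ _ hl]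
      refine stepR_mono (ok_getD I hl) (fun p hp => ?_) (fun j hj => ?_) i hi
      · rw [uVal, uVal, hy1 _ (uTgt_lt I v _ p hv hp)]
      · exact (hy2 v hv l (by omega) j hj).ge

end Pool.Agent.Work.MP_85af13_lc.G
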