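import Pool.Agent.Work.MP_85af13_lc.G.C.Bal

set_option autoImplicit false
set_option linter.unusedVariables false
set_option linter.unusedSimpArgs false

/-!
# One level: halving, loading, sorting, balancing

PROOF. `half_sum`: `E = Σ_{i<n} r (2 i)`, `O = Σ_{i<n} r (2 i + 1)`; `sm (2n) r = E + O` (`Finset.sum_range_succ`-induction or `Finset.sum_range` splitting), `O - E = Σ (r (2i+1) - r (2i)) ≥ 0`
(sorted), and `O - E ≤ r (2n-1) - r 0 ≤ 1` (by induction: `Σ_{i<m} (r (2i+1) - r (2i)) ≤ r (2m-1) - r 0` for `m ≥ 1`). So `E + O = 2 E` or `2 E + 1` and `E = (E + O) / 2`.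
`level_spec`: the row after `(2, t)` has the registers `r (2 i)` for `i < n` and `U t (i - n)` for `n ≤ i < 2 n`; its sum is `sm r / 2 + Σ_{p<n} U t p` (`Finset.sum_range_add`-like
splitting) and its values are in `[lo, hi]`. `sort_spec` keeps the multiset, so sum and interval (`sm_of_ms`, `inn_of_ms`), and makes it sorted; the range is `≤ hi - lo ≤ 2 ^ (b+1)`.
`bal_spec` gives the claim; the values stay in `[lo, hi]` because the first register does not decrease and the last one does not increase, and the row is sorted.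
-/

namespace Pool.Agent.Work.MP_85af13_lc.G

theorem half_sum (n : ℕ) (hn : 0 < n) (r : ℕ → ℤ) (hb : Blc (2 * n) r) :
    ∑ i ∈ Finset.range n, r (2 * i) = sm (2 * n) r / 2 := by
  obtain ⟨hs, hb1⟩ := hb
  have hsplit : ∀ m : ℕ, sm (2 * m) r =
      ∑ i ∈ Finset.range m, r (2 * i) + ∑ i ∈ Finset.range m, r (2 * i + 1) := by
    intro m
    induction m with
    | zero => simp [sm]
    | succ m ih =>
      have h2 : 2 * (m + 1) = 2 * m + 1 + 1 := by ring
      unfold sm at ih ⊢
      rw [h2, Finset.sum_range_succ, Finset.sum_range_succ, ih, Finset.sum_range_succ,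
        Finset.sum_range_succ]
      ring
  have hle : ∑ i ∈ Finset.range n, r (2 * i) ≤ ∑ i ∈ Finset.range n, r (2 * i + 1) := by
    refine Finset.sum_le_sum fun i hi => ?_
    rw [Finset.mem_range] at hi
    exact hs _ _ (by omega) (by omega)
  have hge : ∀ m : ℕ, m + 1 ≤ n → ∑ i ∈ Finset.range (m + 1), r (2 * i + 1) -
      ∑ i ∈ Finset.range (m + 1), r (2 * i) ≤ r (2 * m + 1) - r 0 := by
    intro m
    induction m with
    | zero => intro _; simp
    | succ m ih =>
      intro hm
      have h1 := ih (by omega)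
      rw [Finset.sum_range_succ, Finset.sum_range_succ (fun i => r (2 * i))]
      have h2 : r (2 * m + 1) ≤ r (2 * (m + 1)) := hs _ _ (by omega) (by omega)
      linarith
  have h3 := hge (n - 1) (by omega)
  rw [show n - 1 + 1 = n by omega, show 2 * (n - 1) + 1 = 2 * n - 1 by omega] at h3
  have h4 := hsplit n
  omega

theorem level_spec (n b t : ℕ) (hn : 0 < n) (U : ℕ → ℕ → ℤ) (lo hi : ℤ)
    (hlh : hi ≤ lo + 2 ^ (b + 1)) (r : ℕ → ℤ) (hb : Blc (2 * n) r) (hin : Inn (2 * n) lo hi r)
    (hU : ∀ p < n, lo ≤ U t p ∧ U t p ≤ hi) :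
    Blc (2 * n) (runR n U (levelP (2 * n) b t) r) ∧
    Inn (2 * n) lo hi (runR n U (levelP (2 * n) b t) r) ∧
    sm (2 * n) (runR n U (levelP (2 * n) b t) r) =
      sm (2 * n) r / 2 + ∑ p ∈ Finset.range n, U t p := by
  have hrun : runR n U (levelP (2 * n) b t) r =
      runR n U (balP (2 * n) b) (runR n U (sortP (2 * n)) (stepR n U (2, t) r)) := by
    unfold levelP
    rw [runR_cons, runR_append]
  rw [hrun]
  have hstep : ∀ i, stepR n U (2, t) r i = if i < n then r (2 * i) else U t (i - n) := by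
    intro i
    simp [stepR]
  obtain ⟨hms, hsrt⟩ := sort_spec n (2 * n) U (stepR n U (2, t) r)
  have hin1 : Inn (2 * n) lo hi (stepR n U (2, t) r) := by
    intro i hi'
    rw [hstep]
    split_ifs with h
    · exact hin _ (by omega)
    · exact hU _ (by omega)
  have hsm1 : sm (2 * n) (stepR n U (2, t) r) =
      sm (2 * n) r / 2 + ∑ p ∈ Finset.range n, U t p := by
    rw [← half_sum n hn r hb]
    unfold sm
    rw [two_mul, Finset.sum_range_add]
    congr 1
    · refine Finset.sum_congr rfl fun i hi' => ?_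
      rw [Finset.mem_range] at hi'
      rw [hstep, if_pos hi']
    · refine Finset.sum_congr rfl fun i hi' => ?_
      rw [hstep, if_neg (by omega), Nat.add_sub_cancel_left]
  have hin2 := inn_of_ms hms hin1
  have hsm2 := sm_of_ms hms
  generalize runR n U (sortP (2 * n)) (stepR n U (2, t) r) = r2 at hms hsrt hin2 hsm2
  have h0 := hin2 0 (by omega)
  have h1 := hin2 (2 * n - 1) (by omega)
  obtain ⟨hB, hS, hlo, hhi⟩ := bal_spec n b hn U r2 hsrt (by linarith [h0.1, h1.2])
  refine ⟨hB, fun i hi' => ?_, ?_⟩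
  · have h2 := hB.1 0 i (Nat.zero_le _) hi'
    have h3 := hB.1 i (2 * n - 1) (by omega) (by omega)
    constructor <;> linarith [h0.1, h1.2]
  · rw [hS, hsm2, hsm1]

end Pool.Agent.Work.MP_85af13_lc.G
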