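import Pool.Agent.Work.MP_85af13_lc.G.CDefs

/-!
# The vertices of the min-max system of a chip-firing instance

PROOF. `n = I.2.length`, `L = (progI I).length`. The second part of `mmOf I` is a `flatMap` of `n` blocks (one for each `v`) of the same length `(L+1) * (2n)`, each block is a `flatMap` of `L + 1` blocks
(rows `l`) of length `2 n`. General lemma `getD_flatMap_const`: if all `f v`, `v < N`, have the same length `K` and `j < K`, `v < N`, then the entry `v * K + j` of `(List.range N).flatMap f` is the entry `j` of
`f v`, and the length is `N * K` (induction on `N`, `List.range_succ`, `List.flatMap_append`, `List.getElem_append`). This gives `mmOf_length` and `mmOf_node` (`nodeI n L v l i = n + ((v * (L+1) + l) * (2n) + i)` and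
`(v * (L+1) + l) * (2n) + i = v * ((L+1) * (2n)) + (l * (2n) + i)`), and `mmOf_cases` by division with remainder. `progI_ok`: members of `progP`, `levelP`, `balP`, `scaleP`, `sortP` (`List.mem_flatMap`, `List.mem_map`,
`List.mem_range`). `mmOf_closed`: by `mmOf_cases`; all edges of a gate of the row `l ≥ 1` lead to registers of the row `l - 1` of the same vertex with index `< 2 n` (`progI_ok` for the operation `(0, j)`: `j + 1 < 2 n`;
the operation number `l - 1 < L` is a member of the program) or to `v`, `p < n` (`uTgt`).
-/

set_option autoImplicit false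
set_option linter.unusedVariables false
set_option linter.unusedSimpArgs false

namespace Pool.Agent.Work.MP_85af13_lc.G

open Pool.Agent.Work.PolyTime

private theorem nd_split {α : Type} (N : ℕ) (f : ℕ → List α) :
    (List.range (N + 1)).flatMap f = (List.range N).flatMap f ++ f N := by
  rw [List.range_succ, List.flatMap_append]
  simp

private theorem nd_len {α : Type} (N K : ℕ) (f : ℕ → List α)
    (hf : ∀ v < N, (f v).length = K) : ((List.range N).flatMap f).length = N * K := by
  induction N with
  | zero => simp
  | succ N ih =>
    rw [nd_split, List.length_append, ih fun v hv => hf v (Nat.lt_succ_of_lt hv),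
      hf N (Nat.lt_succ_self N), Nat.succ_mul]

theorem getD_flatMap_const {α : Type} (d : α) (N K : ℕ) (f : ℕ → List α)
    (hf : ∀ v < N, (f v).length = K) (v j : ℕ) (hv : v < N) (hj : j < K) :
    ((List.range N).flatMap f).getD (v * K + j) d = (f v).getD j d := by
  induction N with
  | zero => exact absurd hv (Nat.not_lt_zero _)
  | succ N ih =>
    have hf' : ∀ v < N, (f v).length = K := fun v hv => hf v (Nat.lt_succ_of_lt hv)
    have hlen := nd_len N K f hf'
    rw [nd_split]
    rcases Nat.lt_succ_iff_lt_or_eq.1 hv with h | rfl
    · rw [List.getD_append _ _ _ _ (by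
        rw [hlen]
        calc v * K + j < v * K + K := Nat.add_lt_add_left hj _
          _ = (v + 1) * K := (Nat.succ_mul v K).symm
          _ ≤ N * K := Nat.mul_le_mul_right K h)]
      exact ih hf' h
    · rw [List.getD_append_right _ _ _ _ (by
        rw [hlen]
        exact Nat.le_add_right _ _), hlen, Nat.add_sub_cancel_left]

theorem length_flatMap_const {α : Type} (N K : ℕ) (f : ℕ → List α)
    (hf : ∀ v < N, (f v).length = K) : ((List.range N).flatMap f).length = N * K :=
  nd_len N K f hf

private theorem nd_row (I : Inst) (v l : ℕ) :
    ((List.range (2 * I.2.length)).map fun i => gate I v l i).length = 2 * I.2.length := by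
  rw [List.length_map, List.length_range]

private theorem nd_block (I : Inst) (v : ℕ) :
    ((List.range ((progI I).length + 1)).flatMap fun l =>
      (List.range (2 * I.2.length)).map fun i => gate I v l i).length =
      ((progI I).length + 1) * (2 * I.2.length) :=
  nd_len _ _ _ fun l _ => nd_row I v l

theorem mmOf_length (I : Inst) : (mmOf I).length =
    I.2.length + I.2.length * (((progI I).length + 1) * (2 * I.2.length)) := by
  unfold mmOf
  rw [List.length_append, List.length_map, List.length_range,
    nd_len _ (((progI I).length + 1) * (2 * I.2.length)) _ fun v _ => nd_block I v]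

private theorem nd_map {α : Type} (d : α) (n : ℕ) (f : ℕ → α) (v : ℕ) (hv : v < n) :
    ((List.range n).map f).getD v d = f v := by
  rw [List.getD_eq_getElem _ _ (by rw [List.length_map, List.length_range]; exact hv),
    List.getElem_map, List.getElem_range]

theorem mmOf_base (I : Inst) (v : ℕ) (hv : v < I.2.length) :
    owner (mmOf I) v = false ∧
    edges (mmOf I) v = e0 (nodeI I.2.length (progI I).length v (progI I).length 0) ::
      (List.range I.2.length).map fun u => (u, false, pw (bdI I)) := by
  have h : (mmOf I).getD v (true, []) = (false,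
      e0 (nodeI I.2.length (progI I).length v (progI I).length 0) ::
      (List.range I.2.length).map fun u => (u, false, pw (bdI I))) := by
    unfold mmOf
    rw [List.getD_append _ _ _ _ (by rw [List.length_map, List.length_range]; exact hv),
      nd_map _ _ _ _ hv]
  unfold owner edges
  rw [h]
  exact ⟨rfl, rfl⟩

private theorem nd_bound (n L v l i : ℕ) (hv : v < n) (hl : l ≤ L) (hi : i < 2 * n) :
    (v * (L + 1) + l) * (2 * n) + i < n * ((L + 1) * (2 * n)) := by
  have h1 : v * (L + 1) + l + 1 ≤ n * (L + 1) := by
    calc v * (L + 1) + l + 1 ≤ v * (L + 1) + (L + 1) := by omega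
      _ = (v + 1) * (L + 1) := (Nat.succ_mul v (L + 1)).symm
      _ ≤ n * (L + 1) := Nat.mul_le_mul_right _ hv
  calc (v * (L + 1) + l) * (2 * n) + i < (v * (L + 1) + l) * (2 * n) + 2 * n :=
        Nat.add_lt_add_left hi _
    _ = (v * (L + 1) + l + 1) * (2 * n) := (Nat.succ_mul _ _).symm
    _ ≤ n * (L + 1) * (2 * n) := Nat.mul_le_mul_right _ h1
    _ = n * ((L + 1) * (2 * n)) := Nat.mul_assoc _ _ _

theorem nodeI_lt (I : Inst) (v l i : ℕ) (hv : v < I.2.length) (hl : l ≤ (progI I).length)
    (hi : i < 2 * I.2.length) :
    nodeI I.2.length (progI I).length v l i < (mmOf I).length := by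
  rw [mmOf_length]
  unfold nodeI
  exact Nat.add_lt_add_left (nd_bound _ _ v l i hv hl hi) _

theorem mmOf_node (I : Inst) (v l i : ℕ) (hv : v < I.2.length) (hl : l ≤ (progI I).length)
    (hi : i < 2 * I.2.length) :
    owner (mmOf I) (nodeI I.2.length (progI I).length v l i) = (gate I v l i).1 ∧
    edges (mmOf I) (nodeI I.2.length (progI I).length v l i) = (gate I v l i).2 := by
  have h : (mmOf I).getD (nodeI I.2.length (progI I).length v l i) (true, []) =
      gate I v l i := by
    unfold mmOf nodeI
    rw [List.getD_append_right _ _ _ _ (by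
      rw [List.length_map, List.length_range]
      exact Nat.le_add_right _ _), List.length_map, List.length_range, Nat.add_sub_cancel_left]
    have e1 : (v * ((progI I).length + 1) + l) * (2 * I.2.length) + i =
        v * (((progI I).length + 1) * (2 * I.2.length)) + (l * (2 * I.2.length) + i) := by
      ring
    have h2 : l * (2 * I.2.length) + i < ((progI I).length + 1) * (2 * I.2.length) := by
      calc l * (2 * I.2.length) + i < l * (2 * I.2.length) + 2 * I.2.length :=
            Nat.add_lt_add_left hi _
        _ = (l + 1) * (2 * I.2.length) := (Nat.succ_mul _ _).symm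
        _ ≤ _ := Nat.mul_le_mul_right _ (Nat.succ_le_succ hl)
    rw [e1, getD_flatMap_const _ _ _ _ (fun v _ => nd_block I v) v _ hv h2,
      getD_flatMap_const _ _ _ _ (fun l _ => nd_row I v l) l _ (Nat.lt_succ_of_le hl) hi,
      nd_map _ _ _ _ hi]
  unfold owner edges
  rw [h]
  exact ⟨rfl, rfl⟩

theorem mmOf_cases (I : Inst) (q : ℕ) (hq : q < (mmOf I).length) :
    q < I.2.length ∨ ∃ v l i, v < I.2.length ∧ l ≤ (progI I).length ∧ i < 2 * I.2.length ∧
      q = nodeI I.2.length (progI I).length v l i := by
  rw [mmOf_length] at hq
  by_cases h : q < I.2.length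
  · exact Or.inl h
  · right
    obtain ⟨q', rfl⟩ := Nat.exists_eq_add_of_le (not_lt.1 h)
    have hq' := Nat.lt_of_add_lt_add_left hq
    have hn : 0 < I.2.length := by
      rcases Nat.eq_zero_or_pos I.2.length with h0 | h0
      · rw [h0, Nat.zero_mul] at hq'
        exact absurd hq' (Nat.not_lt_zero _)
      · exact h0
    have h2n : 0 < 2 * I.2.length := by omega
    have hL : 0 < (progI I).length + 1 := Nat.succ_pos _
    refine ⟨q' / (2 * I.2.length) / ((progI I).length + 1),
      q' / (2 * I.2.length) % ((progI I).length + 1), q' % (2 * I.2.length), ?_, ?_, ?_, ?_⟩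
    · rw [Nat.div_lt_iff_lt_mul hL, Nat.div_lt_iff_lt_mul h2n, Nat.mul_assoc]
      exact hq'
    · exact Nat.lt_succ_iff.1 (Nat.mod_lt _ hL)
    · exact Nat.mod_lt _ h2n
    · unfold nodeI
      rw [Nat.div_add_mod' (q' / (2 * I.2.length)) ((progI I).length + 1),
        Nat.div_add_mod' q' (2 * I.2.length)]

theorem nodeI_inj (n L v l i v' l' i' : ℕ) (hl : l ≤ L) (hl' : l' ≤ L) (hi : i < 2 * n)
    (hi' : i' < 2 * n) (h : nodeI n L v l i = nodeI n L v' l' i') : v = v' ∧ l = l' ∧ i = i' := by
  unfold nodeI at h
  have h1 := Nat.add_left_cancel h
  have key : ∀ (a b c d m : ℕ), b < m → d < m → a * m + b = c * m + d → a = c ∧ b = d := by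
    intro a b c d m hb hd h
    have hm : 0 < m := by omega
    have e1 : (a * m + b) / m = a := by
      rw [Nat.mul_comm, Nat.mul_add_div hm, Nat.div_eq_of_lt hb, Nat.add_zero]
    have e2 : (c * m + d) / m = c := by
      rw [Nat.mul_comm, Nat.mul_add_div hm, Nat.div_eq_of_lt hd, Nat.add_zero]
    have e3 : a = c := by rw [← e1, ← e2, h]
    subst e3
    exact ⟨rfl, Nat.add_left_cancel h⟩
  obtain ⟨h2, h3⟩ := key _ _ _ _ _ hi hi' h1
  obtain ⟨h4, h5⟩ := key _ _ _ _ _ (Nat.lt_succ_of_le hl) (Nat.lt_succ_of_le hl') h2
  exact ⟨h4, h5, h3⟩

private theorem nd_sort (w : ℕ) (o : Op) (ho : o ∈ sortP w) : o.1 = 0 ∧ o.2 + 1 < w := by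
  unfold sortP at ho
  obtain ⟨a, -, h⟩ := List.mem_flatMap.1 ho
  obtain ⟨j, hj, rfl⟩ := List.mem_map.1 h
  rw [List.mem_range] at hj
  exact ⟨rfl, by show j + 1 < w; omega⟩

theorem progI_ok (I : Inst) (o : Op) (ho : o ∈ progI I) :
    (o.1 = 0 ∧ o.2 + 1 < 2 * I.2.length) ∨ (o.1 = 1 ∧ o.2 ≤ bdI I) ∨ (o.1 = 2 ∧ o.2 ≤ bdI I) := by
  unfold progI progP at ho
  obtain ⟨t, ht, h⟩ := List.mem_flatMap.1 ho
  rw [List.mem_range] at ht
  unfold levelP at h
  rw [List.mem_cons, List.mem_append] at h
  rcases h with rfl | h | h
  · exact Or.inr (Or.inr ⟨rfl, Nat.lt_succ_iff.1 ht⟩)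
  · exact Or.inl (nd_sort _ _ h)
  · unfold balP at h
    obtain ⟨i, hi, h⟩ := List.mem_flatMap.1 h
    unfold scaleP at h
    obtain ⟨a, -, h⟩ := List.mem_flatMap.1 h
    rw [List.mem_cons] at h
    rcases h with rfl | h
    · exact Or.inr (Or.inl ⟨rfl, Nat.sub_le _ _⟩)
    · exact Or.inl (nd_sort _ _ h)

theorem mmOf_closed (I : Inst) : Closed (mmOf I) := by
  intro q hq e he
  have hbase : ∀ u, u < I.2.length → u < (mmOf I).length := by
    intro u hu
    rw [mmOf_length]
    omega
  rcases mmOf_cases I q hq with h | ⟨v, l, i, hv, hl, hi, rfl⟩
  · rw [(mmOf_base I q h).2, List.mem_cons] at he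
    rcases he with rfl | he
    · exact nodeI_lt I q _ 0 h le_rfl (by omega)
    · obtain ⟨u, hu, rfl⟩ := List.mem_map.1 he
      exact hbase u (List.mem_range.1 hu)
  · rw [(mmOf_node I v l i hv hl hi).2] at he
    unfold gate at he
    by_cases hl0 : l = 0
    · simp only [hl0, decide_true, cond_true, List.mem_singleton] at he
      subst he
      exact hbase v hv
    · have hq' : ∀ j, j < 2 * I.2.length →
          nodeI I.2.length (progI I).length v (l - 1) j < (mmOf I).length :=
        fun j hj => nodeI_lt I v (l - 1) j hv (by omega) hj
      have hll : l - 1 < (progI I).length := by omega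
      have ho : (progI I).getD (l - 1) (0, 0) ∈ progI I := by
        rw [List.getD_eq_getElem _ _ hll]
        exact List.getElem_mem hll
      simp only [hl0, decide_false, cond_false] at he
      generalize (progI I).getD (l - 1) (0, 0) = o at he ho
      have hok := progI_ok I o ho
      unfold gateO at he
      rcases hok with ⟨h1, h2⟩ | ⟨h1, h2⟩ | ⟨h1, h2⟩
      · simp only [h1, decide_true, cond_true] at he
        by_cases h3 : i = o.2
        · simp only [h3, decide_true, cond_true, List.mem_cons, List.not_mem_nil, or_false] at he
          rcases he with rfl | rfl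
          · exact hq' _ (by omega)
          · exact hq' _ h2
        · by_cases h4 : i = o.2 + 1
          · have h5 : decide (o.2 + 1 = o.2) = false := by simp
            simp only [h4, h5, cond_false, decide_true, cond_true, List.mem_cons,
              List.not_mem_nil, or_false] at he
            rcases he with rfl | rfl
            · exact hq' _ (by omega)
            · exact hq' _ h2
          · simp only [h3, h4, decide_false, cond_false, List.mem_singleton] at he
            subst he
            exact hq' _ hi
      · have h10 : decide (o.1 = 0) = false := by rw [h1]; rfl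
        have h12 : decide (o.1 = 1) = true := by rw [h1]; rfl
        simp only [h10, cond_false] at he
        simp only [h12, cond_true] at he
        by_cases h3 : i = 0
        · simp only [h3, decide_true, cond_true, List.mem_cons, List.not_mem_nil, or_false] at he
          rcases he with rfl | rfl
          · exact hq' _ (by omega)
          · exact hq' (2 * I.2.length - 1) (by omega)
        · by_cases h4 : i = 2 * I.2.length - 1
          · have h5 : decide (i = 0) = false := by simp [h3]
            simp only [h5, cond_false] at he
            simp only [h4, decide_true, cond_true, List.mem_cons,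
              List.not_mem_nil, or_false] at he
            rcases he with rfl | rfl
            · exact hq' _ (by omega)
            · exact hq' 0 (by omega)
          · simp only [h3, h4, decide_false, cond_false, List.mem_singleton] at he
            subst he
            exact hq' _ hi
      · have h10 : decide (o.1 = 0) = false := by rw [h1]; rfl
        have h11 : decide (o.1 = 1) = false := by rw [h1]; rfl
        simp only [h10, h11, cond_false] at he
        by_cases h3 : i + 1 ≤ I.2.length
        · simp only [h3, decide_true, cond_true, List.mem_singleton] at he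
          subst he
          exact hq' (2 * i) (by omega)
        · simp only [h3, decide_false, cond_false, List.mem_singleton] at he
          subst he
          show uTgt I v o.2 (i - I.2.length) < _
          unfold uTgt
          rcases (mlB I (i - I.2.length) v).getD o.2 false with _ | _
          · exact hbase v hv
          · show i - I.2.length < _
            exact hbase _ (by omega)

end Pool.Agent.Work.MP_85af13_lc.G
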