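import Pool.Agent.Work.MP_85af13_lc.G.CDefs

set_option autoImplicit false
set_option linter.unusedVariables false
set_option linter.unusedSimpArgs false

/-!
# The min-max system of an instance is computable in polynomial time

PROOF. Numbers (`ℕ`) are coded in unary. Bottom up: `bdI` (`PTime.ser`, `PTime.length`, `PTime.natMul`, `PTime.natAdd`), `sortP`, `scaleP`, `balP`, `levelP`, `progP` (`PTime.flatMap`, `PTime.map`, `PTime.range`,
`PTime.cons`, `PTime.append`, `PTime.natSub`), `progI`, `nodeI` (`PTime.natMul`, `PTime.natAdd`), `e0`, `pw` (`PTime.shiftB'`), `sDig`, `uTgt`, `uEdge` (`PTime.degL`, `PTime.mlB`, `PTime.nth`, `PTime.addB'`, `PTime.cond`),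
`gateO` with `q = nodeI n L v (l - 1)`, `gate`, `mmOf`. Model: Reduce.lean (`PTime.newInst`), Check.lean.
-/

namespace Pool.Agent.Work.MP_85af13_lc.G

open Pool.Agent.Work.PolyTime
open Pool.Agent.Work.MP_63b90e_lc (addB shiftB)
open Pool.Agent.Work.MP_62a643_lc (leB mulN)

variable {α : Type} [Code α]

theorem PTime.bdI {I : α → Inst} (hI : PTime I) : PTime (fun x => G.bdI (I x)) := by
  unfold G.bdI
  exact PTime.natAdd (PTime.natMul (PTime.const 6) (PTime.length (PTime.ser hI))) (PTime.const 12)

private theorem PTime.sortP {w : α → ℕ} (hw : PTime w) : PTime (fun x => G.sortP (w x)) := by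
  unfold G.sortP
  refine PTime.flatMap (f := fun x (_ : ℕ) => (List.range (w x - 1)).map fun j => ((0, j) : Op))
    (PTime.range hw) ?_
  refine PTime.map (f := fun _ (j : ℕ) => ((0, j) : Op))
    (PTime.range (PTime.natSub (hw.comp PTime.fst) (PTime.const 1))) ?_
  exact PTime.prodMk (PTime.const 0) PTime.snd

private theorem PTime.scaleP {w k : α → ℕ} (hw : PTime w) (hk : PTime k) :
    PTime (fun x => G.scaleP (w x) (k x)) := by
  unfold G.scaleP
  refine PTime.flatMap (f := fun x (_ : ℕ) => (((1, k x) : Op) :: G.sortP (w x)))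
    (PTime.range hw) ?_
  exact PTime.cons (PTime.prodMk (PTime.const 1) (hk.comp PTime.fst))
    (PTime.sortP (hw.comp PTime.fst))

private theorem PTime.balP {w b : α → ℕ} (hw : PTime w) (hb : PTime b) :
    PTime (fun x => G.balP (w x) (b x)) := by
  unfold G.balP
  refine PTime.flatMap (f := fun x (i : ℕ) => G.scaleP (w x) (b x - i))
    (PTime.range (PTime.succ hb)) ?_
  exact PTime.scaleP (hw.comp PTime.fst) (PTime.natSub (hb.comp PTime.fst) PTime.snd)

private theorem PTime.levelP {w b t : α → ℕ} (hw : PTime w) (hb : PTime b) (ht : PTime t) :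
    PTime (fun x => G.levelP (w x) (b x) (t x)) := by
  unfold G.levelP
  exact PTime.cons (PTime.prodMk (PTime.const 2) ht)
    (PTime.append (PTime.sortP hw) (PTime.balP hw hb))

private theorem PTime.progP {w b t : α → ℕ} (hw : PTime w) (hb : PTime b) (ht : PTime t) :
    PTime (fun x => G.progP (w x) (b x) (t x)) := by
  unfold G.progP
  refine PTime.flatMap (f := fun x (t : ℕ) => G.levelP (w x) (b x) t)
    (PTime.range (PTime.succ ht)) ?_
  exact PTime.levelP (hw.comp PTime.fst) (hb.comp PTime.fst) PTime.snd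

theorem PTime.progI {I : α → Inst} (hI : PTime I) : PTime (fun x => G.progI (I x)) := by
  unfold G.progI
  exact PTime.progP (PTime.natMul (PTime.const 2) (PTime.size hI)) (PTime.bdI hI) (PTime.bdI hI)

private theorem PTime.nodeI {n L v l i : α → ℕ} (hn : PTime n) (hL : PTime L) (hv : PTime v)
    (hl : PTime l) (hi : PTime i) :
    PTime (fun x => G.nodeI (n x) (L x) (v x) (l x) (i x)) := by
  unfold G.nodeI
  exact PTime.natAdd hn (PTime.natAdd (PTime.natMul (PTime.natAdd
    (PTime.natMul hv (PTime.succ hL)) hl) (PTime.natMul (PTime.const 2) hn)) hi)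

private theorem PTime.e0 {q : α → ℕ} (hq : PTime q) : PTime (fun x => G.e0 (q x)) := by
  unfold G.e0
  exact PTime.prodMk hq (PTime.const (false, []))

private theorem PTime.pw {k : α → ℕ} (hk : PTime k) : PTime (fun x => G.pw (k x)) := by
  unfold G.pw
  exact PTime.shiftB' hk (PTime.const [true])

private theorem PTime.sDig {I : α → Inst} {v t : α → ℕ} (hI : PTime I) (hv : PTime v)
    (ht : PTime t) : PTime (fun x => G.sDig (I x) (v x) (t x)) := by
  unfold G.sDig
  have hd : PTime (fun x => (degL (I x) (v x)).getD (t x) false) :=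
    PTime.nth (PTime.degL hI hv) ht (PTime.const _)
  have hc : PTime (fun x => (addB [true] ((I x).2.getD (v x) [])).getD (t x) false) :=
    PTime.nth (PTime.addB' (PTime.const [true]) (PTime.nth (PTime.snd.comp hI) hv (PTime.const _)))
      ht (PTime.const _)
  exact PTime.cond hd (PTime.cond hc (PTime.const _) (PTime.const _))
    (PTime.cond hc (PTime.const _) (PTime.const _))

private theorem PTime.uTgt {I : α → Inst} {v t p : α → ℕ} (hI : PTime I) (hv : PTime v)
    (ht : PTime t) (hp : PTime p) : PTime (fun x => G.uTgt (I x) (v x) (t x) (p x)) := by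
  unfold G.uTgt
  exact PTime.cond (PTime.nth (PTime.mlB hI hp hv) ht (PTime.const _)) hp hv

private theorem PTime.uEdge {I : α → Inst} {v t p : α → ℕ} (hI : PTime I) (hv : PTime v)
    (ht : PTime t) (hp : PTime p) : PTime (fun x => G.uEdge (I x) (v x) (t x) (p x)) := by
  unfold G.uEdge
  exact PTime.prodMk (PTime.uTgt hI hv ht hp)
    (PTime.cond (PTime.eq hp (PTime.const 0)) (PTime.sDig hI hv ht) (PTime.const _))

private theorem tc_sing {x : α → WEdge} (hx : PTime x) : PTime (fun a => [x a]) :=
  PTime.cons hx (PTime.const [])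

private theorem tc_two {x y : α → WEdge} (hx : PTime x) (hy : PTime y) :
    PTime (fun a => [x a, y a]) :=
  PTime.cons hx (PTime.cons hy (PTime.const []))

private theorem PTime.gateO {I : α → Inst} {v : α → ℕ} {o : α → Op} {q : α → ℕ → ℕ} {i : α → ℕ}
    (hI : PTime I) (hv : PTime v) (ho : PTime o)
    (hq : ∀ j : α → ℕ, PTime j → PTime (fun x => q x (j x))) (hi : PTime i) :
    PTime (fun x => G.gateO (I x) (v x) (o x) (q x) (i x)) := by
  unfold G.gateO
  have ho1 : PTime (fun x => (o x).1) := PTime.fst.comp ho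
  have ho2 : PTime (fun x => (o x).2) := PTime.snd.comp ho
  have hn : PTime (fun x => (I x).2.length) := PTime.size hI
  have hl : PTime (fun x => 2 * (I x).2.length - 1) :=
    PTime.natSub (PTime.natMul (PTime.const 2) hn) (PTime.const 1)
  have e1 : PTime (fun x => G.e0 (q x (o x).2)) := PTime.e0 (hq _ ho2)
  have e2 : PTime (fun x => G.e0 (q x ((o x).2 + 1))) := PTime.e0 (hq _ (PTime.succ ho2))
  have e3 : PTime (fun x => G.e0 (q x (i x))) := PTime.e0 (hq _ hi)
  have h0 : PTime (fun x => q x 0) := hq _ (PTime.const 0)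
  have hL : PTime (fun x => q x (2 * (I x).2.length - 1)) := hq _ hl
  have hp : PTime (fun x => G.pw (o x).2) := PTime.pw ho2
  refine PTime.cond (PTime.eq ho1 (PTime.const 0)) ?_
    (PTime.cond (PTime.eq ho1 (PTime.const 1)) ?_ ?_)
  · refine PTime.cond (PTime.eq hi ho2) ?_ (PTime.cond (PTime.eq hi (PTime.succ ho2)) ?_ ?_)
    · exact PTime.prodMk (PTime.const false) (tc_two e1 e2)
    · exact PTime.prodMk (PTime.const true) (tc_two e1 e2)
    · exact PTime.prodMk (PTime.const false) (tc_sing e3)
  · refine PTime.cond (PTime.eq hi (PTime.const 0)) ?_ (PTime.cond (PTime.eq hi hl) ?_ ?_)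
    · exact PTime.prodMk (PTime.const true) (tc_two (PTime.e0 h0)
        (PTime.prodMk hL (PTime.prodMk (PTime.const true) hp)))
    · exact PTime.prodMk (PTime.const false) (tc_two (PTime.e0 hL)
        (PTime.prodMk h0 (PTime.prodMk (PTime.const false) hp)))
    · exact PTime.prodMk (PTime.const false) (tc_sing e3)
  · refine PTime.cond (PTime.natLe (PTime.succ hi) hn) ?_ ?_
    · exact PTime.prodMk (PTime.const false)
        (tc_sing (PTime.e0 (hq _ (PTime.natMul (PTime.const 2) hi))))
    · exact PTime.prodMk (PTime.const false)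
        (tc_sing (PTime.uEdge hI hv ho2 (PTime.natSub hi hn)))

theorem PTime.gate {I : α → Inst} {v l i : α → ℕ} (hI : PTime I) (hv : PTime v) (hl : PTime l)
    (hi : PTime i) : PTime (fun x => G.gate (I x) (v x) (l x) (i x)) := by
  unfold G.gate
  have hl1 : PTime (fun x => l x - 1) := PTime.natSub hl (PTime.const 1)
  refine PTime.cond (PTime.eq hl (PTime.const 0)) ?_ ?_
  · exact PTime.prodMk (PTime.const false) (tc_sing (PTime.e0 hv))
  · refine PTime.gateO hI hv (PTime.nth (PTime.progI hI) hl1 (PTime.const _)) ?_ hi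
    intro j hj
    exact PTime.nodeI (PTime.size hI) (PTime.length (PTime.progI hI)) hv hl1 hj

theorem PTime.mmOf {I : α → Inst} (hI : PTime I) : PTime (fun x => G.mmOf (I x)) := by
  unfold G.mmOf
  have hn : PTime (fun x => (I x).2.length) := PTime.size hI
  have hL : PTime (fun x => (G.progI (I x)).length) := PTime.length (PTime.progI hI)
  refine PTime.append ?_ ?_
  · refine PTime.map (f := fun x (v : ℕ) => ((false,
      G.e0 (G.nodeI (I x).2.length (G.progI (I x)).length v (G.progI (I x)).length 0) ::
        (List.range (I x).2.length).map fun u => (u, false, G.pw (G.bdI (I x)))) :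
          Bool × List WEdge)) (PTime.range hn) ?_
    refine PTime.prodMk (PTime.const false) (PTime.cons ?_ ?_)
    · exact PTime.e0 (PTime.nodeI (hn.comp PTime.fst) (hL.comp PTime.fst) PTime.snd
        (hL.comp PTime.fst) (PTime.const 0))
    · refine PTime.map (f := fun (y : α × ℕ) (u : ℕ) =>
        ((u, false, G.pw (G.bdI (I y.1))) : WEdge)) (PTime.range (hn.comp PTime.fst)) ?_
      exact PTime.prodMk PTime.snd (PTime.prodMk (PTime.const false)
        (PTime.pw ((PTime.bdI hI).comp (PTime.fst.comp PTime.fst))))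
  · refine PTime.flatMap (f := fun x (v : ℕ) =>
      (List.range ((G.progI (I x)).length + 1)).flatMap fun l =>
        (List.range (2 * (I x).2.length)).map fun i => G.gate (I x) v l i) (PTime.range hn) ?_
    refine PTime.flatMap (f := fun (y : α × ℕ) (l : ℕ) =>
        (List.range (2 * (I y.1).2.length)).map fun i => G.gate (I y.1) y.2 l i)
      (PTime.range (PTime.succ (hL.comp PTime.fst))) ?_
    refine PTime.map (f := fun (z : (α × ℕ) × ℕ) (i : ℕ) => G.gate (I z.1.1) z.1.2 z.2 i)
      (PTime.range (PTime.natMul (PTime.const 2) (hn.comp (PTime.fst.comp PTime.fst)))) ?_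
    exact PTime.gate (hI.comp (PTime.fst.comp (PTime.fst.comp PTime.fst)))
      (PTime.snd.comp (PTime.fst.comp PTime.fst)) (PTime.snd.comp PTime.fst) PTime.snd

end Pool.Agent.Work.MP_85af13_lc.G
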