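import Pool.Agent.Work.MP_85af13_lc.G.C.Gate
import Pool.Agent.Work.MP_85af13_lc.G.C.Arith
import Pool.Agent.Work.MP_85af13_lc.G.C.Chip
import Pool.Agent.Work.MP_85af13_lc.G.C.TimeC
import Pool.Agent.Work.MP_85af13_lc.G.Red

set_option autoImplicit false
set_option linter.unusedVariables false
set_option linter.unusedSimpArgs false

/-!
# Chip-firing reduces to min-max systems (assembly)
-/

namespace Pool.Agent.Work.MP_85af13_lc.G

open Pool.Agent.Work.PolyTime

theorem halting_le_minMax : PolyReducible haltingEulerian minMax := by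
  refine reducible_of (wf := fun I : Inst => (graphOf I).Eulerian)
    (yes := fun I : Inst => (graphOf I).Terminates (chipsOf I))
    (wf2 := Closed) (yes2 := Feasible) (F := mmOf) eulB_iff (PTime.eulB PTime.id)
    (PTime.mmOf PTime.id) (fun I _ => mmOf_closed I) ?_
  intro I hE
  rw [terminates_iff_bounded I hE]
  constructor
  · rintro ⟨x, hx⟩
    exact feasible_of_rowSol I x ((rowSol_iff I x).2 hx)
  · intro h
    obtain ⟨x, hx⟩ := rowSol_of_feasible I h
    exact ⟨x, (rowSol_iff I x).1 hx⟩

end Pool.Agent.Work.MP_85af13_lc.G
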