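import Pool.Agent.Work.MP_85af13_lc.G.C.Sort

set_option autoImplicit false
set_option linter.unusedVariables false
set_option linter.unusedSimpArgs false

/-!
# One round: folding the extreme registers and sorting

PROOF. `w = 2 n ≥ 2`, `a = r 0`, `b = r (w-1)`, `c = 2 ^ k`. The folded row `f = stepR n U (1, k) r` has `f 0 = max a (b - c)`, `f (w-1) = min b (a + c)`, `f i = r i` otherwise
(`0 ≠ w - 1`); `f 0 + f (w-1) = a + b`, so `sm w f = sm w r`, and all values of `f` are in `[a, b]` (`a ≤ b`). `R` is the sorted row of `f` (`sort_spec`), so it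
has the same multiset as `f`. Count: if `b ≤ a + c` then `f = r`, both rows are sorted with the same multiset, `cnt R = 0` since all values of `R` are `≤ b ≤ a + c ≤ R 0 + c`.
If `a + c < b ≤ a + 2 c`: `f 0 = b - c ≤ a + c` and `f (w-1) = a + c`; `R 0 ≥ a`, so `cnt R ≤ #{i < w : a + c < R i} = #{i < w : a + c < f i}` (same multiset: count by
`Multiset.countP`/`filter.card`) and the indices `i` with `a + c < f i` are those with `a + c < r i` without `w - 1` (and `0` is in neither set).
-/

namespace Pool.Agent.Work.MP_85af13_lc.G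

private theorem card_ms (w : ℕ) (t : ℤ) (r : ℕ → ℤ) :
    ((Finset.range w).filter fun i => t < r i).card = Multiset.countP (fun y => t < y) (ms w r) := by
  rw [ms, Multiset.countP_map]
  rfl

theorem round_spec (n k : ℕ) (hn : 0 < n) (U : ℕ → ℕ → ℤ) (r : ℕ → ℤ) (hs : Srt (2 * n) r)
    (hr : r (2 * n - 1) ≤ r 0 + 2 ^ (k + 1)) :
    Srt (2 * n) (runR n U ((1, k) :: sortP (2 * n)) r) ∧
    sm (2 * n) (runR n U ((1, k) :: sortP (2 * n)) r) = sm (2 * n) r ∧
    r 0 ≤ runR n U ((1, k) :: sortP (2 * n)) r 0 ∧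
    runR n U ((1, k) :: sortP (2 * n)) r (2 * n - 1) ≤ r (2 * n - 1) ∧
    cnt (2 * n) (2 ^ k) (runR n U ((1, k) :: sortP (2 * n)) r) ≤ cnt (2 * n) (2 ^ k) r - 1 := by
  rw [runR_cons]
  set f : ℕ → ℤ := stepR n U (1, k) r with hf
  obtain ⟨hms, hsrt⟩ := sort_spec n (2 * n) U f
  set R : ℕ → ℤ := runR n U (sortP (2 * n)) f with hR
  have hc : (0 : ℤ) < 2 ^ k := by positivity
  have hc2 : (2 : ℤ) ^ (k + 1) = 2 * 2 ^ k := by ring
  rw [hc2] at hr
  set c : ℤ := 2 ^ k with hcdef
  have hne : 2 * n - 1 ≠ 0 := by omega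
  have f0 : f 0 = max (r 0) (r (2 * n - 1) - c) := by
    simp [hf, stepR, hcdef]
  have f1 : f (2 * n - 1) = min (r (2 * n - 1)) (r 0 + c) := by
    simp only [hf, stepR, hcdef]
    rw [if_neg (by decide), if_pos trivial, if_neg hne, if_pos trivial]
  have f2 : ∀ i, i ≠ 0 → i ≠ 2 * n - 1 → f i = r i := by
    intro i h0 h1
    simp only [hf, stepR]
    rw [if_neg (by decide), if_pos trivial, if_neg h0, if_neg h1]
  have hab : r 0 ≤ r (2 * n - 1) := hs 0 (2 * n - 1) (Nat.zero_le _) (by omega)
  have hsum : f 0 + f (2 * n - 1) = r 0 + r (2 * n - 1) := by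
    rw [f0, f1]
    rcases le_total (r (2 * n - 1)) (r 0 + c) with h | h
    · rw [max_eq_left (by linarith), min_eq_left h]
    · rw [max_eq_right (by linarith), min_eq_right h]
      ring
  have hsm : sm (2 * n) f = sm (2 * n) r := by
    obtain ⟨m, hm⟩ : ∃ m, 2 * n = m + 2 := ⟨2 * n - 2, by omega⟩
    have hm1 : 2 * n - 1 = m + 1 := by omega
    rw [hm1] at hsum f2
    rw [sm, sm, hm, Finset.sum_range_succ f, Finset.sum_range_succ r, Finset.sum_range_succ' f,
      Finset.sum_range_succ' r]
    have h1 : ∑ i ∈ Finset.range m, f (i + 1) = ∑ i ∈ Finset.range m, r (i + 1) := by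
      refine Finset.sum_congr rfl fun i hi => ?_
      have := Finset.mem_range.1 hi
      exact f2 _ (by omega) (by omega)
    rw [h1]
    linarith
  have hInn : Inn (2 * n) (r 0) (r (2 * n - 1)) f := by
    intro i hi
    by_cases h0 : i = 0
    · rw [h0, f0]
      exact ⟨le_max_left _ _, max_le hab (by linarith)⟩
    · by_cases h1 : i = 2 * n - 1
      · rw [h1, f1]
        exact ⟨le_min hab (by linarith), min_le_left _ _⟩
      · rw [f2 i h0 h1]
        exact ⟨hs 0 i (Nat.zero_le _) hi, hs i (2 * n - 1) (by omega) (by omega)⟩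
  have hInnR : Inn (2 * n) (r 0) (r (2 * n - 1)) R := inn_of_ms hms hInn
  refine ⟨hsrt, ?_, (hInnR 0 (by omega)).1, (hInnR (2 * n - 1) (by omega)).2, ?_⟩
  · rw [sm_of_ms hms, hsm]
  · rcases le_or_gt (r (2 * n - 1)) (r 0 + c) with h | h
    · have h0 : cnt (2 * n) c R = 0 := by
        rw [cnt, Finset.card_eq_zero, Finset.filter_eq_empty_iff]
        intro i hi
        have h1 := (hInnR i (Finset.mem_range.1 hi)).2
        have h2 := (hInnR 0 (by omega)).1
        linarith
      rw [h0]
      exact Nat.zero_le _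
    · have h1 : cnt (2 * n) c R ≤ ((Finset.range (2 * n)).filter fun i => r 0 + c < R i).card := by
        apply Finset.card_le_card
        intro i hi
        rw [Finset.mem_filter] at hi ⊢
        have h2 := (hInnR 0 (by omega)).1
        exact ⟨hi.1, by linarith [hi.2]⟩
      rw [card_ms, hms, ← card_ms] at h1
      refine h1.trans ?_
      have hmem : 2 * n - 1 ∈ (Finset.range (2 * n)).filter fun i => r 0 + c < r i := by
        rw [Finset.mem_filter, Finset.mem_range]
        exact ⟨by omega, h⟩
      rw [cnt, ← Finset.card_erase_of_mem hmem]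
      apply Finset.card_le_card
      intro i hi
      rw [Finset.mem_filter] at hi
      have h0 : i ≠ 0 := by
        rintro rfl
        have h3 := hi.2
        rw [f0, max_eq_right (by linarith)] at h3
        linarith
      have h1' : i ≠ 2 * n - 1 := by
        rintro rfl
        have h3 := hi.2
        rw [f1, min_eq_right (by linarith)] at h3
        linarith
      rw [Finset.mem_erase, Finset.mem_filter, ← f2 i h0 h1']
      exact ⟨h1', hi⟩

end Pool.Agent.Work.MP_85af13_lc.G
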