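import Pool.Agent.Work.MP_85af13_lc.G.C.Row

set_option autoImplicit false
set_option linter.unusedVariables false
set_option linter.unusedSimpArgs false

/-!
# The sorting program sorts

PROOF. `sortP w` consists of `w` passes; one pass is the list of the operations `(0, 0), .., (0, w - 2)`. The operation `(0, j)`, `j + 1 < w`, replaces
`r j`, `r (j+1)` by their minimum and maximum, so it keeps the multiset (`ms_swap`: if `r j ≤ r (j+1)` the row is unchanged, otherwise it is `r ∘ Equiv.swap j (j+1)`).
Let `B m r` be the row after the first `m` operations of a pass and `M i` the maximum of `r 0, .., r i`. By induction on `m ≤ w - 1`: `B m r i = r i` for `i > m`,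
`B m r m = M m`, and `B m r i = min (M i) (r (i+1))` for `i < m`. Let `P k` be: for all `i < w` with `w - k ≤ i` and all `j ≤ i`: `r j ≤ r i`. If `r` satisfies `P k`
then the row after a pass satisfies `P (k+1)`: for `w - k - 1 ≤ i < w - 1` the new value is `min (M i) (r (i+1)) = M i` since `r (i+1)` is at least all previous
registers, for `i = w - 1` it is `M (w-1)`, and the new values at `j ≤ i` are at most `M j ≤ M i`. `P 0` is empty, `P w` is `Srt w`. (`M i` may be written as
`(Finset.range (i+1)).sup' _ r`, or avoid it with the two statements: all `r j`, `j ≤ i`, are `≤ M i`, and `M i` is one of them.)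
-/

namespace Pool.Agent.Work.MP_85af13_lc.G

theorem ms_swap (n w : ℕ) (U : ℕ → ℕ → ℤ) (j : ℕ) (hj : j + 1 < w) (r : ℕ → ℤ) :
    ms w (stepR n U (0, j) r) = ms w r := by
  rcases le_total (r j) (r (j + 1)) with h | h
  · have e : stepR n U (0, j) r = r := by
      funext i
      simp only [stepR, if_true]
      split_ifs with h1 h2
      · rw [h1, min_eq_left h]
      · rw [h2, max_eq_right h]
      · rfl
    rw [e]
  · have e : stepR n U (0, j) r = fun i => r (Equiv.swap j (j + 1) i) := by
      funext i
      simp only [stepR, if_true]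
      split_ifs with h1 h2
      · rw [h1, Equiv.swap_apply_left, min_eq_right h]
      · rw [h2, Equiv.swap_apply_right, max_eq_left h]
      · rw [Equiv.swap_apply_of_ne_of_ne h1 h2]
    have hm : (Finset.range w).map (Equiv.swap j (j + 1)).toEmbedding = Finset.range w := by
      apply Finset.map_perm
      intro i hi
      rw [Finset.coe_range, Set.mem_Iio]
      by_contra hcon
      apply hi
      exact Equiv.swap_apply_of_ne_of_ne (by omega) (by omega)
    have hv : (Multiset.range w).map (Equiv.swap j (j + 1)) = Multiset.range w := by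
      have := congrArg Finset.val hm
      simpa using this
    rw [e, ms, ms]
    conv_rhs => rw [← hv, Multiset.map_map]
    rfl

private def so_mx (r : ℕ → ℤ) : ℕ → ℤ
  | 0 => r 0
  | i + 1 => max (so_mx r i) (r (i + 1))

private theorem so_mx_ge (r : ℕ → ℤ) : ∀ i j : ℕ, j ≤ i → r j ≤ so_mx r i := by
  intro i
  induction i with
  | zero => intro j hj; rw [Nat.le_zero.1 hj]; exact le_rfl
  | succ i ih =>
    intro j hj
    rw [so_mx]
    rcases Nat.lt_or_ge i j with h | h
    · have : j = i + 1 := by omega
      rw [this]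
      exact le_max_right _ _
    · exact (ih j h).trans (le_max_left _ _)

private theorem so_mx_le (r : ℕ → ℤ) (c : ℤ) : ∀ i : ℕ, (∀ j ≤ i, r j ≤ c) → so_mx r i ≤ c := by
  intro i
  induction i with
  | zero => intro h; exact h 0 le_rfl
  | succ i ih =>
    intro h
    rw [so_mx]
    exact max_le (ih fun j hj => h j (by omega)) (h _ le_rfl)

private theorem so_mx_mono (r : ℕ → ℤ) {i j : ℕ} (h : i ≤ j) : so_mx r i ≤ so_mx r j :=
  so_mx_le r _ i fun k hk => so_mx_ge r j k (hk.trans h)

private theorem so_B_succ (n : ℕ) (U : ℕ → ℕ → ℤ) (r : ℕ → ℤ) (m : ℕ) :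
    runR n U ((List.range (m + 1)).map fun j => ((0 : ℕ), j)) r =
      stepR n U (0, m) (runR n U ((List.range m).map fun j => ((0 : ℕ), j)) r) := by
  rw [List.range_succ, List.map_append, runR_append]
  rfl

private theorem so_B (n : ℕ) (U : ℕ → ℕ → ℤ) (r : ℕ → ℤ) (m : ℕ) :
    (∀ i, m < i → runR n U ((List.range m).map fun j => ((0 : ℕ), j)) r i = r i) ∧
      runR n U ((List.range m).map fun j => ((0 : ℕ), j)) r m = so_mx r m ∧
      ∀ i, i < m → runR n U ((List.range m).map fun j => ((0 : ℕ), j)) r i =
        min (so_mx r i) (r (i + 1)) := by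
  induction m with
  | zero => exact ⟨fun i _ => rfl, rfl, fun i hi => absurd hi (Nat.not_lt_zero i)⟩
  | succ m ih =>
    obtain ⟨h1, h2, h3⟩ := ih
    rw [so_B_succ]
    obtain ⟨b, hb⟩ : ∃ b, b = runR n U ((List.range m).map fun j => ((0 : ℕ), j)) r := ⟨_, rfl⟩
    rw [← hb] at h1 h2 h3 ⊢
    refine ⟨fun i hi => ?_, ?_, fun i hi => ?_⟩
    · simp only [stepR, if_true]
      rw [if_neg (by omega), if_neg (by omega), h1 i (by omega)]
    · simp only [stepR, if_true]
      rw [if_neg (by omega), h2, h1 (m + 1) (by omega)]
      rfl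
    · simp only [stepR, if_true]
      rcases Nat.lt_or_ge i m with h | h
      · rw [if_neg (by omega), if_neg (by omega), h3 i h]
      · have : i = m := by omega
        rw [if_pos this, h2, h1 (m + 1) (by omega), this]

private theorem so_B_ms (n w : ℕ) (U : ℕ → ℕ → ℤ) (r : ℕ → ℤ) (m : ℕ) (hm : m + 1 ≤ w) :
    ms w (runR n U ((List.range m).map fun j => ((0 : ℕ), j)) r) = ms w r := by
  induction m with
  | zero => rfl
  | succ m ih =>
    rw [so_B_succ, ms_swap n w U m (by omega), ih (by omega)]

private def so_P (w k : ℕ) (r : ℕ → ℤ) : Prop :=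
  ∀ i, i < w → w ≤ i + k → ∀ j ≤ i, r j ≤ r i

private theorem so_pass (n w : ℕ) (U : ℕ → ℕ → ℤ) (k : ℕ) (r : ℕ → ℤ) (h : so_P w k r) :
    so_P w (k + 1) (runR n U ((List.range (w - 1)).map fun j => ((0 : ℕ), j)) r) := by
  intro i hi hk j hj
  obtain ⟨-, h2, h3⟩ := so_B n U r (w - 1)
  have hup : ∀ a, a < w → runR n U ((List.range (w - 1)).map fun j => ((0 : ℕ), j)) r a ≤
      so_mx r a := by
    intro a ha
    rcases Nat.lt_or_ge a (w - 1) with h4 | h4
    · rw [h3 a h4]
      exact min_le_left _ _
    · have : a = w - 1 := by omega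
      rw [this, h2]
  have heq : runR n U ((List.range (w - 1)).map fun j => ((0 : ℕ), j)) r i = so_mx r i := by
    rcases Nat.lt_or_ge i (w - 1) with h4 | h4
    · rw [h3 i h4]
      apply min_eq_left
      apply so_mx_le
      intro a ha
      exact h (i + 1) (by omega) (by omega) a (by omega)
    · have : i = w - 1 := by omega
      rw [this, h2]
  rw [heq]
  exact (hup j (by omega)).trans (so_mx_mono r hj)

theorem sort_spec (n w : ℕ) (U : ℕ → ℕ → ℤ) (r : ℕ → ℤ) :
    ms w (runR n U (sortP w) r) = ms w r ∧ Srt w (runR n U (sortP w) r) := by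
  have key : ∀ k : ℕ, ms w (runR n U ((List.range k).flatMap fun _ =>
      (List.range (w - 1)).map fun j => ((0 : ℕ), j)) r) = ms w r ∧
      so_P w k (runR n U ((List.range k).flatMap fun _ =>
        (List.range (w - 1)).map fun j => ((0 : ℕ), j)) r) := by
    intro k
    induction k with
    | zero =>
      refine ⟨rfl, fun i hi hk => ?_⟩
      omega
    | succ k ih =>
      obtain ⟨h1, h2⟩ := ih
      have e : (List.range (k + 1)).flatMap (fun _ =>
          (List.range (w - 1)).map fun j => ((0 : ℕ), j)) =
          ((List.range k).flatMap fun _ => (List.range (w - 1)).map fun j => ((0 : ℕ), j)) ++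
            (List.range (w - 1)).map fun j => ((0 : ℕ), j) := by
        rw [List.range_succ, List.flatMap_append, List.flatMap_singleton]
      rw [e, runR_append]
      refine ⟨?_, so_pass n w U k _ h2⟩
      rcases Nat.eq_zero_or_pos w with hw | hw
      · subst hw
        rfl
      · rw [so_B_ms n w U _ (w - 1) (by omega), h1]
  obtain ⟨h1, h2⟩ := key w
  refine ⟨h1, fun i j hij hj => ?_⟩
  exact h2 j hj (by omega) i hij

end Pool.Agent.Work.MP_85af13_lc.G
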